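import Pool.Agent.K3h83.IN.Stm3

/-!
# Statements for the solvable case: the minimal counterexample
-/

set_option autoImplicit false

open scoped BigOperators Classical

noncomputable section

namespace Pool.Agent.K3h83.IN

open Pool.Agent.Helper884 Pool.Agent.K3h3.KB Pool.Agent.K3h3.MK
open Pool.Agent.H254R3.IN (IsIrr mem_Irr)
open IC (Irr)

/-- a normal subgroup `L ≥ Z(G)` of symplectic type -/
structure SL (q : ℕ) {G : Type} [Group G] (L : Subgroup G) : Prop where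
  nL : L.Normal
  le : Subgroup.center G ≤ L
  pow : ∀ l ∈ L, l ^ q ∈ Subgroup.center G
  com : ∀ a ∈ L, ∀ b ∈ L, a * b * a⁻¹ * b⁻¹ ∈ Subgroup.center G
  cen : ∀ l ∈ L, (∀ m ∈ L, l * m = m * l) → l ∈ Subgroup.center G

/-- existence of `L` -/
def G1 : Prop := ∀ (p : ℕ) [Fact p.Prime] (G : Type) [Group G] [Finite G] (P : Sylow p G),
  NN P ≠ ⊤ →
  (∀ A : Subgroup G, A.Normal → (∀ a ∈ A, ∀ b ∈ A, a * b = b * a) → A ≤ Subgroup.center G) →
  (∀ N : Subgroup G, N.Normal → ¬ N ≤ Subgroup.center G → N ⊔ NN P = ⊤) →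
  ∀ B : Subgroup G, B.Normal → IsSolvable B → ¬ B ≤ Subgroup.center G →
  ∃ q : ℕ, q.Prime ∧ q ≠ p ∧ ∃ L : Subgroup G, SL q L ∧ L ≠ Subgroup.center G ∧
    ∀ L' : Subgroup G, L'.Normal → Subgroup.center G ≤ L' → L' ≤ L → L' = Subgroup.center G ∨ L' = L

/-- the intersection with the Sylow normalizer and the subgroup `E` -/
def G2 : Prop := ∀ (p q : ℕ) [Fact p.Prime] [Fact q.Prime] (G : Type) [Group G] [Finite G]
  (P : Sylow p G), q ≠ p → NN P ≠ ⊤ → ¬ p ∣ Nat.card (Subgroup.center G) →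
  (∀ N : Subgroup G, N.Normal → ¬ N ≤ Subgroup.center G → N ⊔ NN P = ⊤) →
  ∀ L : Subgroup G, SL q L → L ≠ Subgroup.center G →
  (∀ L' : Subgroup G, L'.Normal → Subgroup.center G ≤ L' → L' ≤ L →
    L' = Subgroup.center G ∨ L' = L) →
  L ⊓ NN P = Subgroup.center G ∧ (((Subgroup.center G).relIndex L : ℕ) : ZMod p) = 1 ∧
  ∃ E : Subgroup G, E ≤ NN P ∧ (∀ n ∈ NN P, ∀ e ∈ E, n * e * n⁻¹ ∈ E) ∧
    (∀ a ∈ E, ∀ b ∈ E, a * b = b * a) ∧ (∀ a ∈ E, a ^ p = 1) ∧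
    ∀ l ∈ L, (∀ e ∈ E, e * l = l * e) → l ∈ Subgroup.center G

/-- the irreducible representation of `L` over a faithful character of the center -/
def G3 : Prop := ∀ (q : ℕ) [Fact q.Prime] (G : Type) [Group G] [Finite G] (L : Subgroup G)
  (hL : SL q L) (nu : Subgroup.center G →* ℂˣ), Function.Injective nu →
  ∃ (V : Type) (_ : AddCommGroup V) (_ : Module ℂ V) (_ : FiniteDimensional ℂ V)
    (σ : Representation ℂ L V), σ.IsIrreducible ∧
    (∀ (z : Subgroup.center G) (v : V), σ ⟨z, hL.le z.2⟩ v = ((nu z : ℂˣ) : ℂ) • v) ∧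
    (ndeg σ.character) ^ 2 = (Subgroup.center G).relIndex L ∧
    (∀ x : G, fixes L.subtype σ.character x) ∧
    ∀ (R : Type) [CommRing R] (w : ℕ →* R),
      wo w (Subgroup.center G).subtype (fun a => ((nu a : ℂˣ) : ℂ)) = wo w L.subtype σ.character

/-- the complement acts linearly -/
def G4 : Prop := ∀ (p q : ℕ) [Fact p.Prime] [Fact q.Prime] (G : Type) [Group G] [Finite G]
  (L N E : Subgroup G) (hL : SL q L) (nu : Subgroup.center G →* ℂˣ), q ≠ p →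
  L ⊔ N = ⊤ → L ⊓ N = Subgroup.center G → E ≤ N → (∀ n ∈ N, ∀ e ∈ E, n * e * n⁻¹ ∈ E) →
  (∀ a ∈ E, ∀ b ∈ E, a * b = b * a) → (∀ a ∈ E, a ^ p = 1) →
  (∀ l ∈ L, (∀ e ∈ E, e * l = l * e) → l ∈ Subgroup.center G) →
  Function.Injective nu →
  ∀ (V : Type) [AddCommGroup V] [Module ℂ V] [FiniteDimensional ℂ V] (σ : Representation ℂ L V),
  σ.IsIrreducible →
  (∀ (z : Subgroup.center G) (v : V), σ ⟨z, hL.le z.2⟩ v = ((nu z : ℂˣ) : ℂ) • v) →
  (ndeg σ.character) ^ 2 = (Subgroup.center G).relIndex L →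
  (∀ x : G, fixes L.subtype σ.character x) →
  ∃ W : Representation ℂ N V,
    (∀ (n : N) (l l' : L), (n : G) * l * (n : G)⁻¹ = l' → ∀ v, W n (σ l v) = σ l' (W n v)) ∧
    ∀ n : N, (n : G) ∈ Subgroup.center G → W n = 1

/-- the characters over `θ` in `G = LN` and over `nu` in `N` -/
def G5 : Prop := ∀ (R : Type) [CommRing R] (w : ℕ →* R) (G : Type) [Group G] [Finite G]
  (L N Z : Subgroup G) (hZL : Z ≤ L) (hZN : Z ≤ N), Z ≤ Subgroup.center G → L.Normal →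
  L ⊔ N = ⊤ → L ⊓ N = Z →
  ∀ (nu : Z →* ℂˣ) (V : Type) [AddCommGroup V] [Module ℂ V] [FiniteDimensional ℂ V]
  (σ : Representation ℂ L V), σ.IsIrreducible →
  (∀ (z : Z) (v : V), σ ⟨z, hZL z.2⟩ v = ((nu z : ℂˣ) : ℂ) • v) →
  ∀ W : Representation ℂ N V,
    (∀ (n : N) (l l' : L), (n : G) * l * (n : G)⁻¹ = l' → ∀ v, W n (σ l v) = σ l' (W n v)) →
    (∀ n : N, (n : G) ∈ Z → W n = 1) →
  wo w L.subtype σ.character =
    w (ndeg σ.character) * wo w (Subgroup.inclusion hZN) (fun a => ((nu a : ℂˣ) : ℂ))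

end Pool.Agent.K3h83.IN
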