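import Pool.Agent.K3h3.MK.Main
import Pool.Agent.R678.MC.A

/-!
# Irreducible characters over a character of a normal subgroup, with weights of the degrees:
definitions and the statements of the steps
-/

set_option autoImplicit false

open scoped BigOperators Classical

noncomputable section

namespace Pool.Agent.K3h83.IN

open Pool.Agent.Helper884 Pool.Agent.K3h3.KB Pool.Agent.K3h3.MK
open Pool.Agent.H254R3.IN (IsIrr mem_Irr)
open IC (Irr)

/-- `χ` lies over `θ` along the homomorphism `j` -/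
def ov {L G : Type} [Group L] [Finite L] [Group G] (j : L →* G) (θ : L → ℂ) (χ : G → ℂ) : Prop :=
  letI := Fintype.ofFinite L
  IC.B (fun l => χ (j l)) θ ≠ 0

/-- `∑ w(χ(1))` over the irreducible characters `χ` of `G` over `θ` -/
def wo {R : Type} [CommRing R] (w : ℕ →* R) {L G : Type} [Group L] [Finite L] [Group G] [Finite G]
    (j : L →* G) (θ : L → ℂ) : R :=
  letI := Fintype.ofFinite G
  ∑ χ ∈ (Irr G).filter (ov j θ), w (ndeg χ)

/-- `x` fixes the function `θ` on `L`, where `G` acts on the normal subgroup `j(L)` by conjugation -/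
def fixes {L G : Type} [Group L] [Group G] (j : L →* G) (θ : L → ℂ) (x : G) : Prop :=
  ∀ l l' : L, x * j l * x⁻¹ = j l' → θ l' = θ l

theorem ov_iff {L G : Type} [Group L] [i : Fintype L] [Group G] (j : L →* G) (θ : L → ℂ)
    (χ : G → ℂ) : ov j θ χ ↔ IC.B (fun l => χ (j l)) θ ≠ 0 := by
  unfold ov
  have h : Fintype.ofFinite L = i := Subsingleton.elim _ _
  rw [h]

theorem wo_eq {R : Type} [CommRing R] (w : ℕ →* R) {L G : Type} [Group L] [Finite L] [Group G]
    [i : Fintype G] (j : L →* G) (θ : L → ℂ) :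
    wo w j θ = ∑ χ ∈ (Irr G).filter (ov j θ), w (ndeg χ) := by
  unfold wo
  have h : Fintype.ofFinite G = i := Subsingleton.elim _ _
  rw [h]

theorem ov_congr {L G L' G' : Type} [Group L] [Finite L] [Group G] [Group L'] [Finite L'] [Group G']
    (f : L ≃* L') (e : G ≃* G') (j : L →* G) (j' : L' →* G') (h : ∀ l, e (j l) = j' (f l))
    (θ : L → ℂ) (θ' : L' → ℂ) (hθ : ∀ l, θ l = θ' (f l)) (χ : G' → ℂ) :
    ov j θ (fun g => χ (e g)) ↔ ov j' θ' χ := by
  haveI := Fintype.ofFinite L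
  haveI := Fintype.ofFinite L'
  rw [ov_iff, ov_iff]
  have h1 : IC.B (fun l => χ (e (j l))) θ = IC.B (fun l => χ (j' l)) θ' := by
    unfold IC.B
    rw [Nat.card_congr f.toEquiv]
    congr 1
    refine Fintype.sum_equiv f.toEquiv _ _ fun l => ?_
    change χ (e (j l)) * θ l⁻¹ = χ (j' (f l)) * θ' (f l)⁻¹
    rw [h, hθ, map_inv]
  rw [h1]

theorem wo_congr {R : Type} [CommRing R] (w : ℕ →* R) {L G L' G' : Type} [Group L] [Finite L]
    [Group G] [Finite G] [Group L'] [Finite L'] [Group G'] [Finite G']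
    (f : L ≃* L') (e : G ≃* G') (j : L →* G) (j' : L' →* G') (h : ∀ l, e (j l) = j' (f l))
    (θ : L → ℂ) (θ' : L' → ℂ) (hθ : ∀ l, θ l = θ' (f l)) : wo w j θ = wo w j' θ' := by
  haveI := Fintype.ofFinite G
  haveI := Fintype.ofFinite G'
  rw [wo_eq, wo_eq]
  symm
  refine Finset.sum_bij' (fun χ _ => fun g => χ (e g)) (fun χ _ => fun g => χ (e.symm g))
    ?_ ?_ ?_ ?_ ?_
  · intro χ hχ
    rw [Finset.mem_filter] at hχ ⊢
    exact ⟨mem_Irr.mpr (Pool.Agent.Q90.WR.irr_comp e (mem_Irr.mp hχ.1)),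
      (ov_congr f e j j' h θ θ' hθ χ).mpr hχ.2⟩
  · intro χ hχ
    rw [Finset.mem_filter] at hχ ⊢
    refine ⟨mem_Irr.mpr (Pool.Agent.Q90.WR.irr_comp e.symm (mem_Irr.mp hχ.1)), ?_⟩
    rw [← ov_congr f e j j' h θ θ' hθ]
    have h2 : (fun g => χ (e.symm (e g))) = χ := by
      funext g
      rw [e.symm_apply_apply]
    rw [h2]
    exact hχ.2
  · intro χ _
    funext g
    simp
  · intro χ _
    funext g
    simp
  · intro χ _
    unfold ndeg
    simp

/-- Clifford correspondence: the number of characters over `θ` in `G` and in the inertia group -/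
def S1 : Prop := ∀ (R : Type) [CommRing R] (w : ℕ →* R) (L G : Type) [Group L] [Finite L] [Group G]
  [Finite G] (j : L →* G) (_ : Function.Injective j) (_ : j.range.Normal) (θ : L → ℂ) (_ : IsIrr θ)
  (T : Subgroup G) (_ : ∀ x, x ∈ T ↔ fixes j θ x) (jT : L →* T) (_ : ∀ l, (jT l : G) = j l),
  wo w j θ = w T.index * wo w jT θ

/-- the `P`-invariant characters of `L` under a character of `G` of degree prime to `p` form one
`N_G(P)`-orbit -/
def S2a : Prop := ∀ (p : ℕ) [Fact p.Prime] (L G : Type) [Group L] [Fintype L] [Group G]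
  [Finite G] (j : L →* G) (_ : Function.Injective j) (_ : j.range.Normal) (P : Sylow p G)
  (χ : G → ℂ) (_ : IsIrr χ) (_ : (ndeg χ : ZMod p) ≠ 0),
  ∑ θ ∈ (Irr L).filter (fun θ => (∀ x ∈ P, fixes j θ x) ∧ ov j θ χ),
    Nat.card {x : G // x ∈ NN P ∧ fixes j θ x} = Nat.card (NN P)

/-- the sum over the `P`-invariant characters -/
def S2 : Prop := ∀ (p : ℕ) [Fact p.Prime] (L G : Type) [Group L] [Fintype L] [Group G]
  [Finite G] (j : L →* G) (_ : Function.Injective j) (_ : j.range.Normal) (P : Sylow p G),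
  (Nat.card (NN P) : RR p) * wt (cl p) G =
    ∑ θ ∈ (Irr L).filter (fun θ => ∀ x ∈ P, fixes j θ x),
      (Nat.card {x : G // x ∈ NN P ∧ fixes j θ x} : RR p) * wo (cl p) j θ

/-- an invariant character of a normal subgroup extends to a central extension -/
def S3a : Prop := ∀ (L G : Type) [Group L] [Finite L] [Group G] [Finite G] (j : L →* G)
  (_ : Function.Injective j) (_ : j.range.Normal) (θ : L → ℂ) (_ : IsIrr θ) (_ : ∀ x, fixes j θ x),
  ∃ (E : Type) (_ : Group E) (_ : Finite E) (π : E →* G) (s : L →* E) (V : Type)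
    (_ : AddCommGroup V) (_ : Module ℂ V) (_ : FiniteDimensional ℂ V) (ρ : Representation ℂ E V)
    (lam : π.ker →* ℂˣ),
    Function.Surjective π ∧ (∀ l, π (s l) = j l) ∧ s.range.Normal ∧
    π.ker ≤ Subgroup.center E ∧ IsCyclic π.ker ∧ (∀ l, ρ.character (s l) = θ l) ∧
    ∀ (a : π.ker) (v : V), ρ a v = (((lam a)⁻¹ : ℂˣ) : ℂ) • v

/-- Gallagher -/
def S3g : Prop := ∀ (L E Q : Type) [Group L] [Finite L] [Group E] [Finite E] [Group Q] [Finite Q]
  (s : L →* E) (_ : Function.Injective s) (t : E →* Q) (_ : Function.Surjective t) (_ : t.ker = s.range)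
  (V : Type) [AddCommGroup V] [Module ℂ V] [FiniteDimensional ℂ V] (ρ : Representation ℂ E V)
  (_ : IsIrr fun l => ρ.character (s l)),
  (∀ β : Q → ℂ, IsIrr β → IsIrr fun x => ρ.character x * β (t x)) ∧
  (∀ β β' : Q → ℂ, IsIrr β → IsIrr β' →
    (fun x => ρ.character x * β (t x)) = (fun x => ρ.character x * β' (t x)) → β = β') ∧
  ∀ χ : E → ℂ, IsIrr χ → ov s (fun l => ρ.character (s l)) χ →
    ∃ β : Q → ℂ, IsIrr β ∧ χ = fun x => ρ.character x * β (t x)

/-- the characters over `θ` in `G`, if `θ` extends to the central extension `E` of `G` -/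
def S3b : Prop := ∀ (R : Type) [CommRing R] (w : ℕ →* R) (L E G Q : Type) [Group L] [Finite L]
  [Group E] [Finite E] [Group G] [Finite G] [Group Q] [Finite Q]
  (π : E →* G) (_ : Function.Surjective π) (_ : π.ker ≤ Subgroup.center E)
  (s : L →* E) (_ : Function.Injective fun l => π (s l)) (t : E →* Q) (_ : Function.Surjective t)
  (_ : t.ker = s.range)
  (V : Type) [AddCommGroup V] [Module ℂ V] [FiniteDimensional ℂ V] (ρ : Representation ℂ E V)
  (θ : L → ℂ) (_ : IsIrr θ) (_ : ∀ l, ρ.character (s l) = θ l) (lam : π.ker →* ℂˣ)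
  (_ : ∀ (a : π.ker) (v : V), ρ a v = (((lam a)⁻¹ : ℂˣ) : ℂ) • v),
  wo w (π.comp s) θ = w (ndeg θ) * wo w (t.comp π.ker.subtype) fun a => ((lam a : ℂˣ) : ℂ)

theorem kle {S Q : Type} [Group S] [Group Q] (q : S →* Q) (K : Subgroup Q) : q.ker ≤ K.comap q := by
  intro x hx
  rw [Subgroup.mem_comap, (MonoidHom.mem_ker).mp hx]
  exact K.one_mem

/-- character triples: the characters over an invariant `θ` in all groups `X` between `L` and `G` -/
def S3 : Prop := ∀ (L G Q : Type) [Group L] [Finite L] [Group G] [Finite G] [Group Q]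
  (j : L →* G) (_ : Function.Injective j) (θ : L → ℂ) (_ : IsIrr θ) (_ : ∀ x, fixes j θ x)
  (r : G →* Q) (_ : Function.Surjective r) (_ : r.ker = j.range),
  ∃ (S : Type) (_ : Group S) (_ : Finite S) (q : S →* Q) (lam : q.ker →* ℂˣ),
    Function.Surjective q ∧ q.ker ≤ Subgroup.center S ∧ IsCyclic q.ker ∧
    ∀ (R : Type) [CommRing R] (w : ℕ →* R) (X : Subgroup G) (jX : L →* X)
      (_ : ∀ l, (jX l : G) = j l),
      wo w jX θ = w (ndeg θ) * wo w (Subgroup.inclusion (kle q (X.map r)))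
        fun a => ((lam a : ℂˣ) : ℂ)

/-- characters of the quotient by a central subgroup -/
def S4a : Prop := ∀ (R : Type) [CommRing R] (w : ℕ →* R) (A G Q : Type) [CommGroup A] [Fintype A]
  [Group G] [Finite G] [Group Q] [Finite Q] (j : A →* G) (_ : Function.Injective j)
  (_ : j.range ≤ Subgroup.center G) (K : Subgroup A) (q : G →* Q) (_ : Function.Surjective q)
  (_ : q.ker = K.map j),
  wt w Q = ∑ θ ∈ (Irr A).filter (fun θ => ∀ k ∈ K, θ k = 1), wo w j θ

/-- conjugation with a field automorphism -/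
def S4b : Prop := ∀ (R : Type) [CommRing R] (w : ℕ →* R) (A G : Type) [Group A] [Finite A]
  [Group G] [Finite G] (j : A →* G) (nu : A →* ℂˣ) (m n : ℕ) (_ : 0 < m) (_ : nu ^ m = 1)
  (_ : Nat.Coprime n m),
  wo w j (fun a => (((nu ^ n) a : ℂˣ) : ℂ)) = wo w j (fun a => ((nu a : ℂˣ) : ℂ))

/-- a function on a group which is constant on the generators of each cyclic subgroup -/
def S4c : Prop := ∀ (X R : Type) [Group X] [Finite X] [AddCommGroup R]
  (_ : ∀ (n : ℕ) (r : R), n ≠ 0 → n • r = 0 → r = 0) (D : X → R)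
  (_ : ∀ (x : X) (n : ℕ), Nat.Coprime n (orderOf x) → D (x ^ n) = D x) (x₀ : X)
  (_ : ∀ x ∈ Subgroup.zpowers x₀, ∑ᶠ y ∈ Subgroup.zpowers x, D y = 0), D x₀ = 0

/-- characters of a finite group trivial on the kernel of `nu` -/
def S4d : Prop := ∀ (A : Type) [CommGroup A] [Finite A] (nu mu : A →* ℂˣ), nu.ker ≤ mu.ker →
  mu ∈ Subgroup.zpowers nu

/-- the central case -/
def S4 : Prop := ∀ (p : ℕ) [Fact p.Prime] (G : Type) [Group G] [Finite G] (Z H : Subgroup G)
  (_ : Z ≤ Subgroup.center G) (hH : Z ≤ H) (nu : Z →* ℂˣ)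
  (_ : ∀ (K : Subgroup G) [K.Normal], K ≤ Z → nu.ker.map Z.subtype ≤ K →
    wt (cl p) (G ⧸ K) = wt (cl p) (H.map (QuotientGroup.mk' K))),
  wo (cl p) Z.subtype (fun a => ((nu a : ℂˣ) : ℂ)) =
    wo (cl p) (Subgroup.inclusion hH) (fun a => ((nu a : ℂˣ) : ℂ))

/-- Sylow normalizers in a quotient -/
def S5a : Prop := ∀ (p : ℕ) [Fact p.Prime] (G Q : Type) [Group G] [Finite G] [Group Q]
  (r : G →* Q) (_ : Function.Surjective r) (P : Sylow p G),
  (Subgroup.normalizer ((((P : Subgroup G).map r : Subgroup Q)) : Set Q)).comap r = r.ker ⊔ NN P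

/-- Sylow subgroups of a quotient are images -/
def S5c : Prop := ∀ (p : ℕ) [Fact p.Prime] (G Q : Type) [Group G] [Finite G] [Group Q]
  (r : G →* Q) (_ : Function.Surjective r) (P : Sylow p Q),
  ∃ P' : Sylow p G, (P' : Subgroup G).map r = P

/-- indices and Sylow normalizers -/
def S6 : Prop := ∀ (p : ℕ) [Fact p.Prime] (G : Type) [Group G] [Finite G] (P : Sylow p G)
  (T X : Subgroup G) (_ : (P : Subgroup G) ≤ T) (_ : NN P ≤ X),
  (T.index : ZMod p) = (T.relIndex X : ZMod p)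

/-- abelian normal `p'`-subgroups -/
def S7a : Prop := ∀ (p : ℕ) [Fact p.Prime] (G : Type) [Group G] [Finite G] (P : Sylow p G)
  (A : Subgroup G) (_ : A.Normal) (_ : ∀ a ∈ A, ∀ b ∈ A, a * b = b * a) (_ : ¬ p ∣ Nat.card A)
  (_ : A ⊔ NN P = ⊤),
  ∃ B : Subgroup G, B.Normal ∧ B ≤ A ∧ B ⊓ NN P = ⊥ ∧ B ⊔ NN P = ⊤ ∧
    ∀ lam : B →* ℂˣ, (∀ x ∈ P, ∀ b b' : B, x * b * x⁻¹ = b' → lam b' = lam b) → lam = 1

/-- inflation -/
def S8 : Prop := ∀ (R : Type) [CommRing R] (w : ℕ →* R) (L G Q : Type) [Group L] [Finite L]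
  [Group G] [Finite G] [Group Q] [Finite Q] (j : L →* G) (_ : Function.Injective j) (q : G →* Q)
  (_ : Function.Surjective q) (_ : q.ker = j.range),
  wo w j (fun _ => 1) = wt w Q

/-- two normal subgroups -/
def S9 : Prop := ∀ (p : ℕ) [Fact p.Prime] (G : Type) [Group G] [Finite G] (P : Sylow p G)
  (L₁ L₂ : Subgroup G) (_ : L₁.Normal) (_ : L₂.Normal) (_ : L₁ ⊓ L₂ ≤ Subgroup.center G)
  (_ : L₁ ⊔ NN P = ⊤) (_ : L₂ ⊔ NN P = ⊤), NN P = ⊤

/-- the `p`-part and the `p'`-part of an abelian normal subgroup -/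
def S12 : Prop := ∀ (p : ℕ) [Fact p.Prime] (G : Type) [Group G] [Finite G] (A : Subgroup G)
  (_ : A.Normal) (_ : ∀ a ∈ A, ∀ b ∈ A, a * b = b * a) (_ : ¬ A ≤ Subgroup.center G),
  ∃ B : Subgroup G, B.Normal ∧ B ≤ A ∧ ¬ B ≤ Subgroup.center G ∧
    (IsPGroup p B ∨ ¬ p ∣ Nat.card B)

/-- a bijection from an equality in the group ring -/
def S13 : Prop := ∀ (p : ℕ) [Fact p.Prime] (G H : Type) [Group G] [Group H] [Fintype G] [Fintype H]
  (F₁ : (G → ℂ) → Prop) (F₂ : (H → ℂ) → Prop)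
  (_ : ∑ χ ∈ (Irr G).filter F₁, cl p (ndeg χ) = ∑ χ ∈ (Irr H).filter F₂, cl p (ndeg χ)),
  ∃ e : {χ : G → ℂ // IsIrr χ ∧ (ndeg χ : ZMod p) ≠ 0 ∧ F₁ χ} ≃
      {χ : H → ℂ // IsIrr χ ∧ (ndeg χ : ZMod p) ≠ 0 ∧ F₂ χ},
    ∀ χ, ((ndeg χ.1 : ZMod p)) ^ 2 = (ndeg (e χ).1 : ZMod p) ^ 2

end Pool.Agent.K3h83.IN
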