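import Pool.Agent.K3h83.IN.Stm5

/-!
# Statements for groups with a cyclic Sylow `p`-subgroup
-/

set_option autoImplicit false

open scoped BigOperators Classical

noncomputable section

namespace Pool.Agent.K3h83.IN

open Pool.Agent.Helper884 Pool.Agent.K3h3.KB Pool.Agent.K3h3.MK
open Pool.Agent.H254R3.IN (IsIrr mem_Irr RF red)
open IC (Irr)

/-! ### local structure -/

/-- the structure of the normalizer `B` of the subgroup `Q` of order `p` of a cyclic Sylow
`p`-subgroup `P`: `C_B(Q) = H P` with `H` a normal subgroup of order prime to `p` -/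
structure LC (p : ℕ) {B : Type} [Group B] (Q P H : Subgroup B) : Prop where
  nQ : Q.Normal
  cQ : Nat.card Q = p
  QP : Q ≤ P
  cyc : IsCyclic P
  pP : IsPGroup p P
  nH : H.Normal
  cH : ¬ p ∣ Nat.card H
  cen : Subgroup.centralizer (Q : Set B) = H ⊔ P
  idx : ¬ p ∣ (H ⊔ P).index

/-- `B` is the normalizer of the subgroup `ι(Q)` of `X` and contains a Sylow `p`-subgroup -/
structure EC (p : ℕ) {B X : Type} [Group B] [Group X] (Q : Subgroup B) (ι : B →* X) : Prop where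
  inj : Function.Injective ι
  nor : ∀ x : X, (∀ y ∈ Q, ∃ z ∈ Q, x * ι y * x⁻¹ = ι z) → x ∈ ι.range
  syl : ¬ p ∣ ι.range.index

/-- existence -/
def C0 : Prop := ∀ (p : ℕ) [Fact p.Prime] (G : Type) [Group G] [Finite G] (P : Sylow p G),
  IsCyclic P → p ∣ Nat.card G → ∃ (Q B : Subgroup G) (H : Subgroup B), NN P ≤ B ∧
    Q ≤ P ∧ B = Subgroup.normalizer (Q : Set G) ∧
    LC p (Q.subgroupOf B) ((P : Subgroup G).subgroupOf B) H ∧
    EC p (Q.subgroupOf B) B.subtype ∧ EC p (Q.subgroupOf B) (MonoidHom.id B)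

/-- isometry -/
def C1 : Prop := ∀ (p : ℕ) [Fact p.Prime] (B X : Type) [Group B] [Fintype B] [Group X] [Fintype X]
  (Q P H : Subgroup B) (ι : B →* X), LC p Q P H → EC p Q ι →
  ∀ β β' : B → ℂ, IC.IsClass β → IC.IsClass β' → (∀ g, ¬ p ∣ orderOf g → β g = 0) →
    (∀ g, ¬ p ∣ orderOf g → β' g = 0) →
    ∑ χ ∈ Irr X, IC.B (fun b => χ (ι b)) β * IC.B (fun b => χ (ι b)) β' = IC.B β β'

/-- `p`-singular classes -/
def C6 : Prop := ∀ (p : ℕ) [Fact p.Prime] (B X : Type) [Group B] [Finite B] [Group X] [Finite X]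
  (Q P H : Subgroup B) (ι : B →* X), LC p Q P H → EC p Q ι →
  Nat.card {c : ConjClasses B // ∃ g, ConjClasses.mk g = c ∧ p ∣ orderOf g} ≤
    Nat.card {c : ConjClasses X // ∃ g, ConjClasses.mk g = c ∧ p ∣ orderOf g}

/-- the irreducible characters of `B` -/
def CT (p : ℕ) (B : Type) [Group B] [Finite B] : Prop :=
  ∃ (Ω : Type) (_ : Fintype Ω) (e f : Ω → ℕ) (ξ : (ω : Ω) → Fin (e ω) → (B → ℂ))
    (ψ : (ω : Ω) → Fin (f ω) → (B → ℂ)),
    (∀ ω, 0 < e ω) ∧ (∀ ω, 0 < f ω) ∧ (∀ ω j, IsIrr (ξ ω j)) ∧ (∀ ω i, IsIrr (ψ ω i)) ∧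
    (Function.Injective fun m : (Σ ω, Fin (e ω) ⊕ Fin (f ω)) => Sum.elim (ξ m.1) (ψ m.1) m.2) ∧
    (∀ χ : B → ℂ, IsIrr χ → ∃ m : (Σ ω, Fin (e ω) ⊕ Fin (f ω)),
      Sum.elim (ξ m.1) (ψ m.1) m.2 = χ) ∧
    (∀ ω i (g : B), ¬ p ∣ orderOf g → ψ ω i g = ∑ j, ξ ω j g) ∧
    (∀ ω j (g : B), p ∣ orderOf g → (∑ i, ψ ω i g) + ξ ω j g = 0)

/-- the case `H = 1` -/
def C3a : Prop := ∀ (p : ℕ) [Fact p.Prime] (B : Type) [Group B] [Finite B]
  (Q P : Subgroup B), LC p Q P ⊥ → CT p B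

/-- extension of characters -/
def C3b : Prop := ∀ (p : ℕ) [Fact p.Prime] (B : Type) [Group B] [Finite B]
  (Q P H : Subgroup B), LC p Q P H → ∀ (φ : H → ℂ), IsIrr φ →
  ∀ T : Subgroup B, (∀ b, b ∈ T ↔ fixes H.subtype φ b) →
  ∃ φ' : T → ℂ, IsIrr φ' ∧ ∀ (h : H) (t : T), (t : B) = h → φ' t = φ h

/-- the general case -/
def C3 : Prop := ∀ (p : ℕ) [Fact p.Prime] (B : Type) [Group B] [Finite B]
  (Q P H : Subgroup B), LC p Q P H → CT p B

/-- integer vectors -/
def C4 : Prop := ∀ (κ : Type) (I : Finset κ) (e f : ℕ) (_ : 0 < e) (_ : 0 < f)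
  (u : Fin f → κ → ℤ) (_ : ∀ i j, ∑ χ ∈ I, u i χ * u j χ = e + if i = j then 1 else 0),
  (I.filter fun χ => ∃ i, u i χ ≠ 0).card ≤ e + f ∧
  ((I.filter fun χ => ∃ i, u i χ ≠ 0).card = e + f →
    ∃ (b : Fin e ⊕ Fin f → κ) (ε : Fin e ⊕ Fin f → ℤ), Function.Injective b ∧
      (∀ m, b m ∈ I.filter fun χ => ∃ i, u i χ ≠ 0) ∧ (∀ m, ε m = 1 ∨ ε m = -1) ∧
      (∀ j i, u i (b (Sum.inl j)) = -ε (Sum.inl j)) ∧
      ∀ k i, u i (b (Sum.inr k)) = if i = k then ε (Sum.inr k) else 0)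

/-! ### modular representations -/

/-- there is a homomorphism from `τ` to the restriction of `ρ` which is not a trace -/
def OccS {F B X V W : Type} [Field F] [Group B] [Finite B] [Group X] [AddCommGroup V] [Module F V]
    [AddCommGroup W] [Module F W] (ι : B →* X) (ρ : Representation F X V)
    (τ : Representation F B W) : Prop :=
  letI := Fintype.ofFinite B
  ∃ f : W →ₗ[F] V, (∀ (b : B) (w : W), ρ (ι b) (f w) = f (τ b w)) ∧
    ¬ ∃ θ : W →ₗ[F] V, f = ∑ b : B, ρ (ι b) ∘ₗ θ ∘ₗ τ b⁻¹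

/-- the endomorphisms are scalars up to traces -/
def StS {F B V : Type} [Field F] [Group B] [Finite B] [AddCommGroup V] [Module F V]
    (σ : Representation F B V) : Prop :=
  letI := Fintype.ofFinite B
  ∀ η : V →ₗ[F] V, (∀ (b : B) (v : V), σ b (η v) = η (σ b v)) →
    ∃ (c : F) (β : V →ₗ[F] V), η = c • (1 : V →ₗ[F] V) + ∑ b : B, σ b ∘ₗ β ∘ₗ σ b⁻¹

/-- the number of irreducible representations (lower bound) -/
def D3 : Prop := ∀ (p : ℕ) [Fact p.Prime] (O : ValuationSubring ℂ) (_ : (p : ℂ) ∈ O.nonunits)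
  (G : Type) [Group G] [Finite G],
  ∃ (n : {c : ConjClasses G // ∃ g, ConjClasses.mk g = c ∧ ¬ p ∣ orderOf g} → ℕ)
    (ρ : ∀ i, Representation (RF O) G (Fin (n i) → RF O)),
    (∀ i, (ρ i).IsIrreducible) ∧ ∀ i j, i ≠ j → NonIso (ρ i) (ρ j)

/-- each irreducible representation of `B` occurs -/
def D4 : Prop := ∀ (p : ℕ) [Fact p.Prime] (F : Type) [Field F] [IsAlgClosed F] [CharP F p]
  (B X : Type) [Group B] [Finite B] [Group X] [Finite X] (Q : Subgroup B) (ι : B →* X),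
  Q.Normal → Nat.card Q = p → Function.Injective ι →
  ∀ (n : ℕ) (τ : Representation F B (Fin n → F)), τ.IsIrreducible →
  ∃ (m : ℕ) (ρ : Representation F X (Fin m → F)), ρ.IsIrreducible ∧ OccS ι ρ τ

/-- in an irreducible representation of `X` at most one irreducible representation of `B` occurs -/
def D5 : Prop := ∀ (p : ℕ) [Fact p.Prime] (F : Type) [Field F] [IsAlgClosed F] [CharP F p]
  (B X : Type) [Group B] [Finite B] [Group X] [Finite X] (Q P H : Subgroup B) (ι : B →* X),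
  LC p Q P H → EC p Q ι →
  ∀ (m : ℕ) (ρ : Representation F X (Fin m → F)), ρ.IsIrreducible →
  ∀ (n n' : ℕ) (τ : Representation F B (Fin n → F)) (τ' : Representation F B (Fin n' → F)),
  τ.IsIrreducible → τ'.IsIrreducible → OccS ι ρ τ → OccS ι ρ τ' → ¬ NonIso τ τ'

/-- projective representations -/
def D6 : Prop := ∀ (F : Type) [Field F] (B X : Type) [Group B] [Finite B] [Group X] [Finite X]
  (ι : B →* X), Function.Injective ι →
  ∀ (m n : ℕ) (ρ : Representation F X (Fin m → F)) (τ : Representation F B (Fin n → F)),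
  (∃ θ, Tr ρ θ = 1) → ¬ OccS ι ρ τ

/-- the inequality -/
def C5 : Prop := ∀ (p : ℕ) [Fact p.Prime] (B X : Type) [Group B] [Finite B] [Group X] [Finite X]
  (Q P H : Subgroup B) (ι : B →* X), LC p Q P H → EC p Q ι →
  Nat.card (Dz p X) + Nat.card {c : ConjClasses B // ∃ g, ConjClasses.mk g = c ∧ ¬ p ∣ orderOf g} ≤
    Nat.card {c : ConjClasses X // ∃ g, ConjClasses.mk g = c ∧ ¬ p ∣ orderOf g}

/-- the endomorphisms of the restriction to `B` -/
def E1 : Prop := ∀ (p : ℕ) [Fact p.Prime] (F : Type) [Field F] [IsAlgClosed F] [CharP F p]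
  (B X : Type) [Group B] [Finite B] [Group X] [Finite X] (Q P H : Subgroup B) (ι : B →* X),
  LC p Q P H → EC p Q ι →
  ∀ (m : ℕ) (ρ : Representation F X (Fin m → F)), ρ.IsIrreducible → StS (ρ.comp ι)

/-- the case of a normal cyclic Sylow `p`-subgroup -/
def E2 : Prop := ∀ (p : ℕ) [Fact p.Prime] (F : Type) [Field F] [IsAlgClosed F] [CharP F p]
  (B : Type) [Group B] [Finite B] (D : Subgroup B), D.Normal → IsCyclic D → IsPGroup p D →
  ¬ p ∣ D.index → ∀ (V W W' : Type) [AddCommGroup V] [Module F V] [FiniteDimensional F V]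
  [AddCommGroup W] [Module F W] [FiniteDimensional F W] [AddCommGroup W'] [Module F W']
  [FiniteDimensional F W'] (σ : Representation F B V) (τ : Representation F B W)
  (τ' : Representation F B W'), StS σ → τ.IsIrreducible → τ'.IsIrreducible →
  OccS (MonoidHom.id B) σ τ → OccS (MonoidHom.id B) σ τ' → ¬ NonIso τ τ'

/-- the general case -/
def E3 : Prop := ∀ (p : ℕ) [Fact p.Prime] (F : Type) [Field F] [IsAlgClosed F] [CharP F p]
  (B : Type) [Group B] [Finite B] (Q P H : Subgroup B), LC p Q P H →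
  ∀ (V W W' : Type) [AddCommGroup V] [Module F V] [FiniteDimensional F V]
  [AddCommGroup W] [Module F W] [FiniteDimensional F W] [AddCommGroup W'] [Module F W']
  [FiniteDimensional F W'] (σ : Representation F B V) (τ : Representation F B W)
  (τ' : Representation F B W'), StS σ → τ.IsIrreducible → τ'.IsIrreducible →
  OccS (MonoidHom.id B) σ τ → OccS (MonoidHom.id B) σ τ' → ¬ NonIso τ τ'

/-- extension of an irreducible modular representation of `H` to its stabilizer -/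
def E4 : Prop := ∀ (p : ℕ) [Fact p.Prime] (F : Type) [Field F] [IsAlgClosed F] [CharP F p]
  (B : Type) [Group B] [Finite B] (Q P H : Subgroup B), LC p Q P H →
  ∀ (U : Type) [AddCommGroup U] [Module F U] [FiniteDimensional F U] (μ : Representation F H U),
  μ.IsIrreducible → ∃ (T : Subgroup B) (μ' : Representation F T U),
    (∀ b : B, b ∈ T ↔ ∃ A : U ≃ₗ[F] U, ∀ (h h' : H) (u : U), b * h * b⁻¹ = h' →
      A (μ h u) = μ h' (A u)) ∧
    ∀ (h : H) (t : T), (t : B) = h → μ' t = μ h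

/-- the equality for the normalizer of the subgroup of order `p` of a cyclic Sylow `p`-subgroup -/
def CN : Prop := ∀ (p : ℕ) [Fact p.Prime] (B X : Type) [Group B] [Finite B] [Group X] [Finite X]
  (Q P H : Subgroup B) (ι : B →* X), LC p Q P H → EC p Q ι → wt (cl p) X = wt (cl p) B

end Pool.Agent.K3h83.IN
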