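import Pool.Agent.K3h83.IN.Stm

/-! Functions constant on the generators of the cyclic subgroups (proof of helper60). -/

set_option autoImplicit false

open scoped BigOperators Classical

namespace Pool.Agent.K3h83.IN.Cyc

open Pool.Agent.K3h83.IN

theorem t_S4c : S4c := by
  intro X R _ _ _ htor D hD x₀ hsum
  suffices H : ∀ n : ℕ, ∀ x ∈ Subgroup.zpowers x₀, orderOf x = n → D x = 0 from
    H _ x₀ (Subgroup.mem_zpowers x₀) rfl
  intro n
  induction n using Nat.strong_induction_on with
  | _ n ih =>
    intro x hx hxn
    letI := Fintype.ofFinite X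
    have hn : 0 < n := hxn ▸ orderOf_pos x
    have h1 : ∑ᶠ y ∈ Subgroup.zpowers x, D y = ∑ k ∈ Finset.range n, D (x ^ k) := by
      have h2 : ((Finset.range n).image (fun k => x ^ k) : Finset X) =
          Finset.univ.filter (fun y => y ∈ Subgroup.zpowers x) := by
        ext y
        simp only [Finset.mem_image, Finset.mem_range, Finset.mem_filter, Finset.mem_univ, true_and]
        constructor
        · rintro ⟨k, -, rfl⟩
          exact Subgroup.npow_mem_zpowers x k
        · intro hy
          obtain ⟨k, hk, h3⟩ := (mem_zpowers_iff_mem_range_orderOf.1 hy : y ∈ Finset.image _ _) |>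
            Finset.mem_image.1
          exact ⟨k, by rw [← hxn]; exact Finset.mem_range.1 hk, h3⟩
      change ∑ᶠ y ∈ (Subgroup.zpowers x : Set X), D y = _
      rw [finsum_mem_eq_finite_toFinset_sum _ (Set.toFinite (Subgroup.zpowers x : Set X))]
      have h3 : (Set.toFinite (Subgroup.zpowers x : Set X)).toFinset =
          (Finset.range n).image (fun k => x ^ k) := by
        rw [h2]
        ext y
        rw [Set.Finite.mem_toFinset, Finset.mem_filter]
        exact ⟨fun h => ⟨Finset.mem_univ _, h⟩, fun h => h.2⟩
      rw [h3, Finset.sum_image]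
      intro k hk l hl h
      simp only [Finset.coe_range, Set.mem_Iio] at hk hl
      exact pow_injOn_Iio_orderOf (by simpa [hxn] using hk) (by simpa [hxn] using hl) h
    have h4 : ∑ k ∈ Finset.range n, D (x ^ k) = (Nat.totient n) • D x := by
      rw [← Finset.sum_filter_add_sum_filter_not (Finset.range n) (fun k => Nat.Coprime n k)]
      have h5 : ∑ k ∈ (Finset.range n).filter (fun k => Nat.Coprime n k), D (x ^ k) =
          (Nat.totient n) • D x := by
        rw [Finset.sum_congr rfl (g := fun _ => D x)]
        · rw [Finset.sum_const]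
          rfl
        · intro k hk
          rw [Finset.mem_filter] at hk
          exact hD x k (by rw [hxn]; exact hk.2.symm)
      have h6 : ∑ k ∈ (Finset.range n).filter (fun k => ¬ Nat.Coprime n k), D (x ^ k) = 0 := by
        apply Finset.sum_eq_zero
        intro k hk
        rw [Finset.mem_filter] at hk
        refine ih (orderOf (x ^ k)) ?_ (x ^ k) (Subgroup.pow_mem _ hx k) rfl
        rw [orderOf_pow, hxn]
        have hg : 1 < Nat.gcd n k := by
          have h7 : 0 < Nat.gcd n k := Nat.gcd_pos_of_pos_left _ hn
          have h8 : Nat.gcd n k ≠ 1 := hk.2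
          omega
        exact Nat.div_lt_self hn hg
      rw [h5, h6, add_zero]
    have h9 := hsum x hx
    rw [h1, h4] at h9
    exact htor _ _ (Nat.totient_pos.2 hn).ne' h9

end Pool.Agent.K3h83.IN.Cyc
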