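import Pool.Agent.K3h83.IN.Fin
import Pool.Agent.K3h96.IN.S1
import Pool.Agent.K3h51.IN.S2
import Pool.Agent.K3h51.IN.S2a
import Pool.Agent.K3h51.IN.S4d
import Pool.Agent.K3h51.IN.S6
import Pool.Agent.K3h85.IN.CExt
import Pool.Agent.K3h85.IN.Triple
import Pool.Agent.K3h85.IN.Field
import Pool.Agent.K3h18.IN.Gal
import Pool.Agent.K3h18.IN.Infl
import Pool.Agent.K3h18.IN.Cen
import Pool.Agent.K3h18.IN.Ext2
import Pool.Agent.K3h18.IN.SemiDir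
import Pool.Agent.K3h83.IN.S4c
import Pool.Agent.K3h60.IN.S17
import Pool.Agent.K3h3.IN.S4
import Pool.Agent.K3h40.IN.S5
import Pool.Agent.K3h40.IN.S7a
import Pool.Agent.K3h40.IN.S13
import Pool.Agent.K3h57.IN.S14
import Pool.Agent.K3h57.IN.T9
import Pool.Agent.K3h57.IN.G3
import Pool.Agent.K3h17.IN.T123
import Pool.Agent.K3h73.IN.T4
import Pool.Agent.K3h59.IN.T5
import Pool.Agent.K3h92.IN.SevenSix
import Pool.Agent.K3h24.IN.TF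
import Pool.Agent.K3h69.IN.T10
import Pool.Agent.K3h7.IN.Glue
import Pool.Agent.K3h25.IN.T12
import Pool.Agent.K3h10.SY.Asm
import Pool.Agent.K3h43.IN.G1
import Pool.Agent.K3h93.IN.G2

/-!
# All steps together
-/

set_option autoImplicit false

open scoped BigOperators Classical

noncomputable section

namespace Pool.Agent.K3h83.IN

open Pool.Agent.Helper884 Pool.Agent.K3h3.KB Pool.Agent.K3h3.MK
open Pool.Agent.H254R3.IN (IsIrr mem_Irr)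
open IC (Irr)

theorem a_S1 : S1 := K3h96.IN.t_S1
theorem a_S2 : S2 := K3h51.IN.t_S2 K3h51.IN.t_S2a
theorem a_S3 : S3 := K3h85.IN.t_S3 K3h85.IN.t_S3a (K3h18.IN.t_S3b)
theorem a_S4a : S4a := K3h18.IN.t_S4a
theorem a_S4 : S4 := K3h3.IN.t_S4 a_S4a K3h85.IN.t_S4b Cyc.t_S4c K3h51.IN.t_S4d
theorem a_S5 : S5a := K3h40.IN.t_S5a
theorem a_S6 : S6 := K3h51.IN.t_S6
theorem a_S7 : S7a := K3h40.IN.t_S7a
theorem a_S8 : S8 := K3h18.IN.t_S8
theorem a_S9 : S9 := K3h51.IN.t_S9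
theorem a_S12 : S12 := K3h51.IN.t_S12
theorem a_S13 : S13 := K3h40.IN.t_S13
theorem a_S14 : S14 := K3h57.IN.t_S14
theorem a_S15 : S15 := K3h18.IN.t_S15
theorem a_S16 : S16 := K3h18.IN.t_S16
theorem a_S17 : S17 := K3h60.IN.t_S17
theorem a_T1 : T1 := K3h17.IN.t_T1
theorem a_T2 : T2 := K3h17.IN.t_T2 a_T1
theorem a_T3 : T3 := K3h17.IN.t_T3 a_T1
theorem a_T4 : T4 := K3h73.IN.t_T4 a_T1
theorem a_T5 : T5 := K3h59.IN.t_T5
theorem a_T14 : T14 := K3h59.IN.t_T14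
theorem a_T7 : T7 := K3h92.IN.t_T7
theorem a_T6 : T6 := K3h92.IN.t_T6
theorem a_T8 : T8 := K3h24.TF.t_T8
theorem a_T9 : T9 := K3h57.IN.t_T9
theorem a_T10 : T10 := K3h69.IN.t_T10 a_T1 a_T7 a_T8 a_T9 a_S17
theorem a_T11 : T11 := K3h7.IN.t_T11 a_T5 a_T6
theorem a_T12 : T12 := K3h25.IN.t_T12 a_T6 a_T7
theorem a_TW : TW := K3h10.SY.t_TW a_T1 a_T2 a_T3 a_T4 a_T5 a_T10 a_T11 a_T12 a_T14
theorem a_G1 : G1 := K3h43.IN.t_G1
theorem a_G2 : G2 := K3h93.IN.t_G2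
theorem a_G3 : G3 := K3h57.IN.t_G3
theorem a_G4 : G4 := K3h18.IN.t_G4 a_TW a_S16 a_S17
theorem a_G5 : G5 := K3h18.IN.t_G5

/-- the reduction -/
theorem reduction {p : ℕ} [Fact p.Prime] {C : ∀ (G : Type) [Group G], Prop} (hC : Cls C)
    (hred : ∀ (G : Type) [Group G] [Finite G], C G → ∀ P : Sylow p G, Red2 P →
      wt (cl p) G = wt (cl p) (NN P)) :
    ∀ (G : Type) [Group G] [Finite G], C G → Q1 p G :=
  main2 a_S1 a_S2 a_S3 a_S4 a_S4a a_S5 a_S6 a_S7 a_S8 a_S9 a_S12 a_S14 a_S15 a_S16 a_S17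
    a_G1 a_G2 a_G3 a_G4 a_G5 hC hred

end Pool.Agent.K3h83.IN
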