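import Pool.Agent.K3h83.IN.Main2

/-!
# The final form of the reduction
-/

set_option autoImplicit false
set_option linter.unusedSectionVars false

open scoped BigOperators Classical

noncomputable section

namespace Pool.Agent.K3h83.IN

open Pool.Agent.Helper884 Pool.Agent.K3h3.KB Pool.Agent.K3h3.MK
open Pool.Agent.H254R3.IN (IsIrr mem_Irr)
open IC (Irr)

section

variable {p : ℕ} [hp : Fact p.Prime]

/-- the relative bijection -/
theorem relBij (h1 : S1) (h6 : S6) (h3 : S3) (h4 : S4) (h5 : S5a) (h13 : S13)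
    {C : ∀ (G : Type) [Group G], Prop} (hC : Cls C)
    (hQ : ∀ (Y : Type) [Group Y] [Finite Y], C Y → Q1 p Y)
    {G : Type} [Group G] [Finite G] (hG : C G) (P : Sylow p G) (L : Subgroup G) (hL : L.Normal)
    (θ : L → ℂ) (hθ : IsIrr θ) (hP : ∀ x ∈ P, fixes L.subtype θ x) :
    ∃ e : {χ : G → ℂ // IsIrr χ ∧ (ndeg χ : ZMod p) ≠ 0 ∧ ov L.subtype θ χ} ≃
      {χ : (L ⊔ NN P : Subgroup G) → ℂ // IsIrr χ ∧ (ndeg χ : ZMod p) ≠ 0 ∧
        ov (Subgroup.inclusion (le_sup_left : L ≤ L ⊔ NN P)) θ χ},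
      ∀ χ, ((ndeg χ.1 : ZMod p)) ^ 2 = (ndeg (e χ).1 : ZMod p) ^ 2 := by
  have hr : L.subtype.range = L := Subgroup.range_subtype L
  have e1 := rel (p := p) h1 h6 h3 h4 h5 hC L.subtype L.subtype_injective (by rw [hr]; exact hL) θ hθ P
    hP hG (fun Y _ _ hY _ => hQ Y hY) (L ⊔ NN P) (by rw [hr])
    (Subgroup.inclusion (le_sup_left : L ≤ L ⊔ NN P)) fun _ => rfl
  haveI := Fintype.ofFinite G
  haveI := Fintype.ofFinite (L ⊔ NN P : Subgroup G)
  rw [wo_eq, wo_eq] at e1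
  exact h13 p G (L ⊔ NN P : Subgroup G) _ _ e1

end

end Pool.Agent.K3h83.IN
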