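import Pool.Agent.K3h83.IN.Rel

/-!
# The reduction
-/

set_option autoImplicit false
set_option linter.unusedSectionVars false

open scoped BigOperators Classical

noncomputable section

namespace Pool.Agent.K3h83.IN

open Pool.Agent.Helper884 Pool.Agent.K3h3.KB Pool.Agent.K3h3.MK
open Pool.Agent.H254R3.IN (IsIrr mem_Irr)
open IC (Irr)

section

variable {p : ℕ} [hp : Fact p.Prime]

theorem wt_top {G : Type} [Group G] [Finite G] {H : Subgroup G} (h : H = ⊤) :
    wt (cl p) G = wt (cl p) H := by
  subst h
  exact wt_congr (cl p) Subgroup.topEquiv.symm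

/-- abelian normal `p'`-subgroups `A` with `G = A N_G(P)` -/
theorem D2 (h2 : S2) (h7 : S7a) (h8 : S8) {G : Type} [Group G] [Finite G] (P : Sylow p G)
    (A : Subgroup G) (hA : A.Normal) (hab : ∀ a ∈ A, ∀ b ∈ A, a * b = b * a)
    (hpA : ¬ p ∣ Nat.card A) (hAN : A ⊔ NN P = ⊤) : wt (cl p) G = wt (cl p) (NN P) := by
  obtain ⟨B, hB, hBA, hint, hsup, hinv⟩ := h7 p G P A hA hab hpA hAN
  haveI := hB
  letI : CommGroup B :=
    { (inferInstance : Group B) with
      mul_comm := fun a b => Subtype.ext (hab a (hBA a.2) b (hBA b.2)) }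
  haveI := Fintype.ofFinite B
  have hr : B.subtype.range = B := Subgroup.range_subtype B
  have hn : B.subtype.range.Normal := by rw [hr]; exact hB
  have e1 := h2 p B G B.subtype B.subtype_injective hn P
  have e2 : (Irr B).filter (fun θ => ∀ x ∈ P, fixes B.subtype θ x) = {fun _ => 1} := by
    ext θ
    rw [Finset.mem_filter, Finset.mem_singleton]
    constructor
    · rintro ⟨h, hf⟩
      obtain ⟨l, rfl⟩ := lin_of_comm (mem_Irr.mp h)
      have hl : l = 1 := by
        refine hinv l fun x hx b b' hbb => ?_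
        have := hf x hx b b' hbb
        exact Units.ext this
      rw [hl]
      funext b
      simp
    · rintro rfl
      refine ⟨?_, fun _ _ _ _ _ => rfl⟩
      have := lin_irr (1 : B →* ℂˣ)
      simpa using mem_Irr.mpr this
  have e3 : Nat.card {x : G // x ∈ NN P ∧ fixes B.subtype (fun _ => 1) x} = Nat.card (NN P) :=
    Nat.card_congr (Equiv.subtypeEquivRight fun x => ⟨fun h => h.1, fun h => ⟨h, fun _ _ _ => rfl⟩⟩)
  rw [e2, Finset.sum_singleton, e3] at e1
  have e4 := natCast_mul_inj p Nat.card_pos.ne' e1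
  rw [e4, h8 (RR p) (cl p) B G (G ⧸ B) B.subtype B.subtype_injective (QuotientGroup.mk' B)
    (QuotientGroup.mk'_surjective B) (by rw [QuotientGroup.ker_mk', hr])]
  refine (wt_congr (cl p) (MulEquiv.ofBijective ((QuotientGroup.mk' B).comp (NN P).subtype) ?_)).symm
  constructor
  · rw [injective_iff_map_eq_one]
    intro x hx
    have h1 : (x : G) ∈ B := by
      rw [MonoidHom.comp_apply] at hx
      exact (QuotientGroup.eq_one_iff _).mp hx
    have h2 : (x : G) ∈ B ⊓ NN P := ⟨h1, x.2⟩
    rw [hint, Subgroup.mem_bot] at h2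
    exact Subtype.ext h2
  · intro y
    obtain ⟨g, rfl⟩ := QuotientGroup.mk'_surjective B y
    have h1 : g ∈ ((B ⊔ NN P : Subgroup G) : Set G) := by rw [hsup]; trivial
    rw [Subgroup.normal_mul] at h1
    obtain ⟨b, hb, n, hn', rfl⟩ := Set.mem_mul.mp h1
    refine ⟨⟨n, hn'⟩, ?_⟩
    rw [MonoidHom.comp_apply, map_mul, Subgroup.subtype_apply]
    have : (QuotientGroup.mk' B) b = 1 := (QuotientGroup.eq_one_iff b).mpr hb
    rw [this, one_mul]

/-- non-cyclic centers -/
theorem D3m (h4 : S4) (h4a : S4a) (h5 : S5a) {G : Type} [Group G] [Finite G] (P : Sylow p G)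
    (hc : ¬ IsCyclic (Subgroup.center G))
    (hI : ∀ (K : Subgroup G) [K.Normal], K ≤ Subgroup.center G → K ≠ ⊥ → Q1 p (G ⧸ K)) :
    wt (cl p) G = wt (cl p) (NN P) := by
  haveI := Fintype.ofFinite (Subgroup.center G)
  letI : CommGroup (Subgroup.center G) :=
    { (inferInstance : Group (Subgroup.center G)) with
      mul_comm := fun a b => Subtype.ext (Subgroup.mem_center_iff.mp b.2 a) }
  have hZ : Subgroup.center G ≤ NN P := le_NN_of_center P le_rfl
  have e1 := h4a (RR p) (cl p) (Subgroup.center G) G G (Subgroup.center G).subtype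
    (Subgroup.subtype_injective _) (by rw [Subgroup.range_subtype]) ⊥ (MonoidHom.id G)
    Function.surjective_id (by rw [Subgroup.map_bot]; rfl)
  have e2 := h4a (RR p) (cl p) (Subgroup.center G) (NN P) (NN P) (Subgroup.inclusion hZ)
    (Subgroup.inclusion_injective hZ) (by
      rintro _ ⟨z, rfl⟩
      rw [Subgroup.mem_center_iff]
      intro y
      exact Subtype.ext (Subgroup.mem_center_iff.mp z.2 y)) ⊥ (MonoidHom.id (NN P))
    Function.surjective_id (by rw [Subgroup.map_bot]; rfl)
  rw [e1, e2]
  refine Finset.sum_congr rfl fun θ hθ => ?_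
  obtain ⟨l, rfl⟩ := lin_of_comm (mem_Irr.mp (Finset.mem_filter.mp hθ).1)
  refine central h5 h4 (Subgroup.center G) le_rfl P l fun K _ hK hl => hI K hK fun hbot => hc ?_
  have h1 : Function.Injective l := by
    rw [← MonoidHom.ker_eq_bot_iff]
    rw [hbot, le_bot_iff] at hl
    exact (Subgroup.map_eq_bot_iff_of_injective _ (Subgroup.subtype_injective _)).mp hl
  let f : Subgroup.center G →* ℂ := (Units.coeHom ℂ).comp l
  exact isCyclic_of_subgroup_isDomain f fun a b hab => h1 (Units.ext hab)

/-- the reduced pairs -/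
structure Red {G : Type} [Group G] (P : Sylow p G) : Prop where
  cyc : IsCyclic (Subgroup.center G)
  ne : NN P ≠ ⊤
  ab : ∀ A : Subgroup G, A.Normal → (∀ a ∈ A, ∀ b ∈ A, a * b = b * a) → A ≤ Subgroup.center G
  sup : ∀ N : Subgroup G, N.Normal → ¬ N ≤ Subgroup.center G → N ⊔ NN P = ⊤
  mono : ∀ N₁ N₂ : Subgroup G, N₁.Normal → N₂.Normal → N₁ ⊓ N₂ ≤ Subgroup.center G →
    N₁ ≤ Subgroup.center G ∨ N₂ ≤ Subgroup.center G

/-- normal `p`-subgroups are in each Sylow subgroup -/
theorem le_sylow {G : Type} [Group G] [Finite G] (P : Sylow p G) {B : Subgroup G} (hB : B.Normal)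
    (h : IsPGroup p B) : B ≤ P := by
  haveI := hB
  have h1 : IsPGroup p (P ⊔ B : Subgroup G) := P.isPGroup'.to_sup_of_normal_right h
  have h2 := P.is_maximal' h1 le_sup_left
  rw [← h2]
  exact le_sup_right

theorem main (h1 : S1) (h2 : S2) (h3 : S3) (h4 : S4) (h4a : S4a) (h5 : S5a) (h6 : S6) (h7 : S7a)
    (h8 : S8) (h9 : S9) (h12 : S12)
    {C : ∀ (G : Type) [Group G], Prop} (hC : Cls C)
    (hred : ∀ (G : Type) [Group G] [Finite G], C G → ∀ P : Sylow p G, Red P →
      wt (cl p) G = wt (cl p) (NN P)) :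
    ∀ (G : Type) [Group G] [Finite G], C G → Q1 p G := by
  have key : ∀ a b : ℕ, ∀ (G : Type) [Group G] [Finite G], C G → (Subgroup.center G).index = a →
      Nat.card G = b → Q1 p G := by
    intro a
    induction a using Nat.strong_induction_on with
    | _ a iha =>
    intro b
    induction b using Nat.strong_induction_on with
    | _ b ihb =>
    intro G _ _ hG ha hb P
    have HI1 : ∀ (Y : Type) [Group Y] [Finite Y], C Y → (Subgroup.center Y).index < a → Q1 p Y :=
      fun Y _ _ hY h => iha _ h _ Y hY rfl rfl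
    have HI2 : ∀ (Y : Type) [Group Y] [Finite Y], C Y → (Subgroup.center Y).index ≤ a →
        Nat.card Y < b → Q1 p Y := by
      intro Y _ _ hY h h'
      rcases h.lt_or_eq with h | h
      · exact HI1 Y hY h
      · exact ihb _ h' Y hY h rfl
    by_cases hN : NN P = ⊤
    · exact wt_top hN
    by_cases hcyc : IsCyclic (Subgroup.center G)
    swap
    · refine D3m h4 h4a h5 P hcyc fun K _ hK hne => HI2 (G ⧸ K) (hC.quo G K hG) ?_ ?_
      · rw [← ha]
        exact center_index_quot K _ le_rfl
      · rw [← hb]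
        have h : Nat.card (G ⧸ K) * Nat.card K = Nat.card G := by
          rw [mul_comm]; exact (Subgroup.card_eq_card_quotient_mul_card_subgroup K ▸ mul_comm _ _)
        have hK1 : 1 < Nat.card K := by
          rw [Subgroup.one_lt_card_iff_ne_bot]; exact hne
        have hq : 0 < Nat.card (G ⧸ K) := Nat.card_pos
        rw [← h]
        nlinarith
    by_cases hsup : ∀ N : Subgroup G, N.Normal → ¬ N ≤ Subgroup.center G → N ⊔ NN P = ⊤
    swap
    · push Not at hsup
      obtain ⟨N, hNn, hNc, hNs⟩ := hsup
      haveI := hNn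
      set M : Subgroup G := N ⊔ Subgroup.center G with hM
      have hMn : M.Normal := inferInstance
      have hcM : Subgroup.center G < M := by
        refine lt_of_le_of_ne le_sup_right fun h => hNc ?_
        rw [h]
        exact le_sup_left
      have hMi : M.index < a := ha ▸ Subgroup.index_strictAnti hcM
      have hMN : M ⊔ NN P = N ⊔ NN P := by
        rw [hM, sup_assoc, sup_eq_right.mpr (le_NN_of_center P (le_refl (Subgroup.center G)))]
      have hr : M.subtype.range = M := Subgroup.range_subtype M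
      set X : Subgroup G := M ⊔ NN P with hX
      have hNX : NN P ≤ X := le_sup_right
      have hPX : (P : Subgroup G) ≤ X := Subgroup.le_normalizer.trans hNX
      have e1 := D1 (p := p) h1 h2 h6 h3 h4 h5 hC M.subtype M.subtype_injective (by rw [hr]; exact hMn)
        P hG (fun Y _ _ hY hidx => HI1 Y hY (lt_of_le_of_lt hidx (by rw [hr]; exact hMi))) X
        (by rw [hr])
      have hZX : Subgroup.center G ≤ X := (le_of_lt hcM).trans le_sup_left
      have e2 : (Subgroup.center X).index < a := by
        have i1 : (Subgroup.center G).subgroupOf X ≤ Subgroup.center X := by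
          intro x hx
          rw [Subgroup.mem_center_iff]
          intro y
          exact Subtype.ext (Subgroup.mem_center_iff.mp (Subgroup.mem_subgroupOf.mp hx) y)
        have i2 := Subgroup.index_antitone i1
        have i3 : (Subgroup.center G).relIndex X * X.index = (Subgroup.center G).index :=
          Subgroup.relIndex_mul_index hZX
        have i4 : 1 < X.index := by
          have : X.index ≠ 1 := fun h => hNs (by rw [← hMN]; exact Subgroup.index_eq_one.mp h)
          have h0 : X.index ≠ 0 := Subgroup.FiniteIndex.index_ne_zero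
          omega
        have i5 : 0 < (Subgroup.center G).relIndex X := by
          apply Nat.pos_of_ne_zero
          intro h
          rw [h, zero_mul] at i3
          exact (Subgroup.FiniteIndex.index_ne_zero (H := Subgroup.center G)) i3.symm
        have i6 : (Subgroup.center X).index ≤ (Subgroup.center G).relIndex X := i2
        rw [← ha, ← i3]
        nlinarith
      rw [e1, HI1 X (hC.sub G X hG) e2 (P.subtype hPX)]
      exact wt_congr (cl p)
        { toFun := fun x => ⟨x.1.1, (mem_NN_subtype P hPX x.1).mp x.2⟩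
          invFun := fun x => ⟨⟨x.1, hNX x.2⟩, (mem_NN_subtype P hPX ⟨x.1, hNX x.2⟩).mpr x.2⟩
          left_inv := fun _ => rfl
          right_inv := fun _ => rfl
          map_mul' := fun _ _ => rfl }
    by_cases hab : ∀ A : Subgroup G, A.Normal → (∀ a ∈ A, ∀ b ∈ A, a * b = b * a) →
        A ≤ Subgroup.center G
    swap
    · push Not at hab
      obtain ⟨A, hA, hAab, hAc⟩ := hab
      obtain ⟨B, hB, hBA, hBc, hBp⟩ := h12 p G A hA hAab hAc
      rcases hBp with hBp | hBp
      · exfalso
        apply hN
        rw [← hsup B hB hBc]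
        exact (sup_eq_right.mpr ((le_sylow P hB hBp).trans Subgroup.le_normalizer)).symm
      · exact D2 h2 h7 h8 P B hB (fun a ha b hb => hAab a (hBA ha) b (hBA hb)) hBp (hsup B hB hBc)
    by_cases hmono : ∀ N₁ N₂ : Subgroup G, N₁.Normal → N₂.Normal →
        N₁ ⊓ N₂ ≤ Subgroup.center G → N₁ ≤ Subgroup.center G ∨ N₂ ≤ Subgroup.center G
    swap
    · push Not at hmono
      obtain ⟨N₁, N₂, hn1, hn2, hint, hc1, hc2⟩ := hmono
      exact absurd (h9 p G P N₁ N₂ hn1 hn2 hint (hsup N₁ hn1 hc1) (hsup N₂ hn2 hc2)) hN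
    exact hred G hG P ⟨hcyc, hN, hab, hsup, hmono⟩
  exact fun G _ _ hG => key _ _ G hG rfl rfl

end

end Pool.Agent.K3h83.IN
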