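import Pool.Agent.K3h83.IN.Main
import Pool.Agent.K3h83.IN.Stm4

/-!
# The stronger reduction
-/

set_option autoImplicit false
set_option linter.unusedSectionVars false

open scoped BigOperators Classical

noncomputable section

namespace Pool.Agent.K3h83.IN

open Pool.Agent.Helper884 Pool.Agent.K3h3.KB Pool.Agent.K3h3.MK
open Pool.Agent.H254R3.IN (IsIrr mem_Irr)
open IC (Irr)

section

variable {p : ℕ} [hp : Fact p.Prime]

/-- it is enough to consider the faithful characters of the center -/
theorem byfaith (h4 : S4) (h4a : S4a) (h5 : S5a) {G : Type} [Group G] [Finite G] (P : Sylow p G)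
    (hI : ∀ (K : Subgroup G) [K.Normal], K ≤ Subgroup.center G → K ≠ ⊥ → Q1 p (G ⧸ K))
    (hf : ∀ nu : Subgroup.center G →* ℂˣ, Function.Injective nu →
      wo (cl p) (Subgroup.center G).subtype (fun a => ((nu a : ℂˣ) : ℂ)) =
        wo (cl p) (Subgroup.inclusion (le_NN_of_center P (le_refl (Subgroup.center G))))
          (fun a => ((nu a : ℂˣ) : ℂ))) :
    wt (cl p) G = wt (cl p) (NN P) := by
  haveI := Fintype.ofFinite (Subgroup.center G)
  letI : CommGroup (Subgroup.center G) :=
    { (inferInstance : Group (Subgroup.center G)) with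
      mul_comm := fun a b => Subtype.ext (Subgroup.mem_center_iff.mp b.2 a) }
  have hZ : Subgroup.center G ≤ NN P := le_NN_of_center P le_rfl
  have e1 := h4a (RR p) (cl p) (Subgroup.center G) G G (Subgroup.center G).subtype
    (Subgroup.subtype_injective _) (by rw [Subgroup.range_subtype]) ⊥ (MonoidHom.id G)
    Function.surjective_id (by rw [Subgroup.map_bot]; rfl)
  have e2 := h4a (RR p) (cl p) (Subgroup.center G) (NN P) (NN P) (Subgroup.inclusion hZ)
    (Subgroup.inclusion_injective hZ) (by
      rintro _ ⟨z, rfl⟩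
      rw [Subgroup.mem_center_iff]
      intro y
      exact Subtype.ext (Subgroup.mem_center_iff.mp z.2 y)) ⊥ (MonoidHom.id (NN P))
    Function.surjective_id (by rw [Subgroup.map_bot]; rfl)
  rw [e1, e2]
  refine Finset.sum_congr rfl fun θ hθ => ?_
  obtain ⟨l, rfl⟩ := lin_of_comm (mem_Irr.mp (Finset.mem_filter.mp hθ).1)
  by_cases hl : Function.Injective l
  · exact hf l hl
  · refine central h5 h4 (Subgroup.center G) le_rfl P l fun K _ hK hk => hI K hK fun hbot => hl ?_
    rw [← MonoidHom.ker_eq_bot_iff]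
    rw [hbot, le_bot_iff] at hk
    exact (Subgroup.map_eq_bot_iff_of_injective _ (Subgroup.subtype_injective _)).mp hk

/-- the center is in the commutator subgroup -/
theorem twist (h4 : S4) (h5 : S5a) (h14 : S14) (h17 : S17)
    {C : ∀ (G : Type) [Group G], Prop} (hC : Cls C)
    {G : Type} [Group G] [Finite G] (P : Sylow p G) (hG : C G)
    (hd : ¬ Subgroup.center G ≤ commutator G)
    (hI : ∀ (Y : Type) [Group Y] [Finite Y], C Y →
      (Subgroup.center Y).index ≤ (Subgroup.center G).index → Nat.card Y < Nat.card G → Q1 p Y)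
    (nu : Subgroup.center G →* ℂˣ) :
    wo (cl p) (Subgroup.center G).subtype (fun a => ((nu a : ℂˣ) : ℂ)) =
        wo (cl p) (Subgroup.inclusion (le_NN_of_center P (le_refl (Subgroup.center G))))
          (fun a => ((nu a : ℂˣ) : ℂ)) := by
  obtain ⟨D, hD⟩ : ∃ D : Subgroup G, D = Subgroup.center G ⊓ commutator G := ⟨_, rfl⟩
  have he : 0 < Nat.card D := Nat.card_pos
  obtain ⟨f, hf⟩ := h17 G (Subgroup.center G) (nu ^ Nat.card D) (by
    intro z hz
    have h1 : (z : G) ∈ D := hD ▸ ⟨z.2, hz⟩
    have h2 : z ^ Nat.card D = 1 := by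
      apply Subtype.ext
      have h3 : (⟨(z : G), h1⟩ : D) ^ Nat.card D = 1 := pow_card_eq_one'
      have h4 : (((⟨(z : G), h1⟩ : D) ^ Nat.card D : D) : G) = 1 := by rw [h3]; rfl
      rw [SubgroupClass.coe_pow] at h4 ⊢
      exact h4
    rw [MonoidHom.pow_apply, ← map_pow, h2, map_one])
  have hr : Function.Surjective (QuotientGroup.mk' (Subgroup.center G)) := QuotientGroup.mk'_surjective (Subgroup.center G)
  have hker : (QuotientGroup.mk' (Subgroup.center G)).ker = (Subgroup.center G) := QuotientGroup.ker_mk' (Subgroup.center G)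
  obtain ⟨S, _, _, q, lam, hq, hqc, hqy, hcard, key⟩ := h14 G (G ⧸ (Subgroup.center G)) (Subgroup.center G) le_rfl nu (Nat.card D) he f
    (fun z => by rw [hf, MonoidHom.pow_apply]) (QuotientGroup.mk' (Subgroup.center G)) hr hker
  obtain ⟨Q, hQ⟩ := Sylow.mapSurjective_surjective hq p (P.mapSurjective hr)
  have hQ' : (Q : Subgroup S).map q = (P : Subgroup G).map (QuotientGroup.mk' (Subgroup.center G)) :=
    congrArg (fun R : Sylow p (G ⧸ (Subgroup.center G)) => (R : Subgroup (G ⧸ (Subgroup.center G)))) hQ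
  have hcomap : ((NN P).map (QuotientGroup.mk' (Subgroup.center G))).comap q = NN Q := by
    have e2 : (NN P).map (QuotientGroup.mk' (Subgroup.center G)) = Subgroup.normalizer
        ((((P : Subgroup G).map (QuotientGroup.mk' (Subgroup.center G)) : Subgroup (G ⧸ (Subgroup.center G)))) : Set (G ⧸ (Subgroup.center G))) := by
      rw [← comap_norm h5 (QuotientGroup.mk' (Subgroup.center G)) hr (by rw [hker]) P,
        Subgroup.map_comap_eq_self_of_surjective hr]
    rw [e2, ← hQ', comap_norm h5 q hq hqc Q]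
  have k1 := key (RR p) (cl p) (NN P) (le_NN_of_center P (le_refl (Subgroup.center G)))
  have k2 := key (RR p) (cl p) ⊤ le_top
  have t1 : wo (cl p) (Subgroup.inclusion (le_top : (Subgroup.center G) ≤ ⊤)) (fun a => ((nu a : ℂˣ) : ℂ)) =
      wo (cl p) (Subgroup.center G).subtype (fun a => ((nu a : ℂˣ) : ℂ)) := wo_incl_top (cl p) rfl _ _
  have htop : ((⊤ : Subgroup G).map (QuotientGroup.mk' (Subgroup.center G))).comap q = ⊤ := by
    rw [Subgroup.map_top_of_surjective _ hr, Subgroup.comap_top]
  have hS : C S := by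
    refine hC.ext S q.ker hqc hqy ?_
    exact hC.iso (G ⧸ (Subgroup.center G)) (S ⧸ q.ker)
      ⟨(QuotientGroup.quotientKerEquivOfSurjective q hq).symm⟩ (hC.quo G (Subgroup.center G) hG)
  have hidx : q.ker.index = (Subgroup.center G).index :=
    Nat.card_congr (QuotientGroup.quotientKerEquivOfSurjective q hq).toEquiv
  have hcS : Nat.card S < Nat.card G := by
    have c1 : q.ker.index * Nat.card q.ker = Nat.card S := Subgroup.index_mul_card _
    have c2 : (Subgroup.center G).index * Nat.card (Subgroup.center G) = Nat.card G := Subgroup.index_mul_card _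
    have c3 : Nat.card D < Nat.card (Subgroup.center G) := by
      have hle : D ≤ Subgroup.center G := hD ▸ inf_le_left
      refine lt_of_le_of_ne (Subgroup.card_le_of_le hle) fun h => hd ?_
      have := Subgroup.eq_of_le_of_card_ge hle h.ge
      rw [← this, hD]
      exact inf_le_right
    have c4 : 0 < (Subgroup.center G).index := Nat.pos_of_ne_zero Subgroup.FiniteIndex.index_ne_zero
    rw [← c1, ← c2, hidx]
    exact Nat.mul_lt_mul_of_pos_left (lt_of_le_of_lt hcard c3) c4
  have c := central h5 h4 q.ker hqc Q lam fun K _ hK _ =>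
    hI (S ⧸ K) (hC.quo S K hS) ((center_index_quot K q.ker hqc).trans hidx.le)
      (lt_of_le_of_lt (Nat.card_le_card_of_surjective _ (QuotientGroup.mk'_surjective K)) hcS)
  rw [← t1, k2, k1, wo_incl_top (cl p) htop, c]
  exact (wo_incl (cl p) hcomap _ _ _).symm

/-- the center is a `p'`-group -/
theorem pcenter (h15 : S15) (h16 : S16) {G : Type} [Group G] [Finite G] (P : Sylow p G)
    (hd : Subgroup.center G ≤ commutator G) (hpc : p ∣ Nat.card (Subgroup.center G))
    (nu : Subgroup.center G →* ℂˣ) (hnu : Function.Injective nu) :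
    wo (cl p) (Subgroup.center G).subtype (fun a => ((nu a : ℂˣ) : ℂ)) =
        wo (cl p) (Subgroup.inclusion (le_NN_of_center P (le_refl (Subgroup.center G))))
          (fun a => ((nu a : ℂˣ) : ℂ)) := by
  obtain ⟨z, hz⟩ := exists_prime_orderOf_dvd_card' p hpc
  have hz1 : z ≠ 1 := by
    rintro rfl
    rw [orderOf_one] at hz
    exact hp.out.one_lt.ne hz
  have hzc : (z : G) ∈ Subgroup.center G := z.2
  have hzP : (z : G) ∈ P := by
    have hn : (Subgroup.zpowers (z : G)).Normal := by
      refine ⟨fun x hx g => ?_⟩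
      have hx' : x ∈ Subgroup.center G := (Subgroup.zpowers_le.mpr hzc) hx
      rw [Subgroup.mem_center_iff.mp hx' g, mul_inv_cancel_right]
      exact hx
    have hpg : IsPGroup p (Subgroup.zpowers (z : G)) := by
      apply IsPGroup.of_card (n := 1)
      rw [Nat.card_zpowers, Subgroup.orderOf_coe, hz, pow_one]
    exact le_sylow P hn hpg (Subgroup.mem_zpowers _)
  have h1 := h16 p G P z hzc hzP (hd hzc)
  have hne : nu z ≠ 1 := fun h => hz1 (hnu (h.trans (map_one nu).symm))
  have e1 := h15 p (Subgroup.center G) G P (Subgroup.center G).subtype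
    (by rw [Subgroup.range_subtype]) nu z h1 hne
  have hPN : (P : Subgroup G) ≤ NN P := Subgroup.le_normalizer
  have e2 := h15 p (Subgroup.center G) (NN P) (P.subtype hPN)
    (Subgroup.inclusion (le_NN_of_center P (le_refl (Subgroup.center G)))) (by
      rintro _ ⟨z, rfl⟩
      rw [Subgroup.mem_center_iff]
      intro y
      exact Subtype.ext (Subgroup.mem_center_iff.mp z.2 y)) nu z (by
      have h2 : (⁅((P.subtype hPN : Sylow p (NN P)) : Subgroup (NN P)),
          ((P.subtype hPN : Sylow p (NN P)) : Subgroup (NN P))⁆).map (NN P).subtype =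
          ⁅(P : Subgroup G), (P : Subgroup G)⁆ := by
        rw [Subgroup.map_commutator]
        have h3 : ((P.subtype hPN : Sylow p (NN P)) : Subgroup (NN P)).map (NN P).subtype =
            (P : Subgroup G) := by
          rw [Sylow.coe_subtype, Subgroup.subgroupOf_map_subtype]
          exact inf_eq_left.mpr hPN
        rw [h3]
      rw [← h2] at h1
      obtain ⟨y, hy, hyz⟩ := h1
      have h4 : y = Subgroup.inclusion (le_NN_of_center P (le_refl (Subgroup.center G))) z :=
        Subtype.ext hyz
      rw [← h4]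
      exact hy) hne
  rw [e1, e2]

/-- solvable chief factors -/
theorem solv (g1 : G1) (g2 : G2) (g3 : G3) (g4 : G4) (g5 : G5)
    {G : Type} [Group G] [Finite G] (P : Sylow p G)
    (hN : NN P ≠ ⊤) (hpc : ¬ p ∣ Nat.card (Subgroup.center G))
    (hab : ∀ A : Subgroup G, A.Normal → (∀ a ∈ A, ∀ b ∈ A, a * b = b * a) →
      A ≤ Subgroup.center G)
    (hsup : ∀ N : Subgroup G, N.Normal → ¬ N ≤ Subgroup.center G → N ⊔ NN P = ⊤)
    (B : Subgroup G) (hB : B.Normal) (hBs : IsSolvable B) (hBc : ¬ B ≤ Subgroup.center G)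
    (nu : Subgroup.center G →* ℂˣ) (hnu : Function.Injective nu) :
    wo (cl p) (Subgroup.center G).subtype (fun a => ((nu a : ℂˣ) : ℂ)) =
        wo (cl p) (Subgroup.inclusion (le_NN_of_center P (le_refl (Subgroup.center G))))
          (fun a => ((nu a : ℂˣ) : ℂ)) := by
  obtain ⟨q, hq, hqp, L, hL, hLc, hmin⟩ := g1 p G P hN hab hsup B hB hBs hBc
  haveI : Fact q.Prime := ⟨hq⟩
  obtain ⟨hint, hidx, E, hEN, hEn, hEab, hEp, hEf⟩ := g2 p q G P hqp hN hpc hsup L hL hLc hmin
  obtain ⟨V, _, _, _, σ, hσ, hz, hdeg, hfix, hwo⟩ := g3 q G L hL nu hnu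
  have hsupL : L ⊔ NN P = ⊤ := hsup L hL.nL fun h => hLc (le_antisymm h hL.le)
  obtain ⟨W, hW, hW1⟩ := g4 p q G L (NN P) E hL nu hqp hsupL hint hEN hEn hEab hEp hEf hnu V σ hσ hz
    hdeg hfix
  rw [hwo (RR p) (cl p), g5 (RR p) (cl p) G L (NN P) (Subgroup.center G) hL.le
    (le_NN_of_center P le_rfl) le_rfl hL.nL hsupL hint nu V σ hσ hz W hW hW1]
  have h1 : ((ndeg σ.character : ℕ) : ZMod p) ^ 2 = 1 := by
    rw [← hidx, ← hdeg]
    push_cast
    rfl
  have h2 : ((ndeg σ.character : ℕ) : ZMod p) ≠ 0 := by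
    intro h
    rw [h] at h1
    simp at h1
  have h3 : cl p (ndeg σ.character) = 1 := by
    rw [cl_apply p h2]
    have h4 : (Units.mk0 ((ndeg σ.character : ℕ) : ZMod p) h2) ^ 2 = 1 := by
      ext
      rw [Units.val_pow_eq_pow_val, Units.val_mk0, h1, Units.val_one]
    rw [h4]
    rfl
  rw [h3, one_mul]

/-- the reduced pairs -/
structure Red2 {G : Type} [Group G] (P : Sylow p G) : Prop where
  cyc : IsCyclic (Subgroup.center G)
  cop : ¬ p ∣ Nat.card (Subgroup.center G)
  der : Subgroup.center G ≤ commutator G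
  ne : NN P ≠ ⊤
  rad : ∀ N : Subgroup G, N.Normal → IsSolvable N → N ≤ Subgroup.center G
  sup : ∀ N : Subgroup G, N.Normal → ¬ N ≤ Subgroup.center G → N ⊔ NN P = ⊤
  mono : ∀ N₁ N₂ : Subgroup G, N₁.Normal → N₂.Normal → N₁ ⊓ N₂ ≤ Subgroup.center G →
    N₁ ≤ Subgroup.center G ∨ N₂ ≤ Subgroup.center G

theorem main2 (h1 : S1) (h2 : S2) (h3 : S3) (h4 : S4) (h4a : S4a) (h5 : S5a) (h6 : S6) (h7 : S7a)
    (h8 : S8) (h9 : S9) (h12 : S12) (h14 : S14) (h15 : S15) (h16 : S16) (h17 : S17)
    (g1 : G1) (g2 : G2) (g3 : G3) (g4 : G4) (g5 : G5)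
    {C : ∀ (G : Type) [Group G], Prop} (hC : Cls C)
    (hred : ∀ (G : Type) [Group G] [Finite G], C G → ∀ P : Sylow p G, Red2 P →
      wt (cl p) G = wt (cl p) (NN P)) :
    ∀ (G : Type) [Group G] [Finite G], C G → Q1 p G := by
  have key : ∀ a b : ℕ, ∀ (G : Type) [Group G] [Finite G], C G → (Subgroup.center G).index = a →
      Nat.card G = b → Q1 p G := by
    intro a
    induction a using Nat.strong_induction_on with
    | _ a iha =>
    intro b
    induction b using Nat.strong_induction_on with
    | _ b ihb =>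
    intro G _ _ hG ha hb P
    have HI1 : ∀ (Y : Type) [Group Y] [Finite Y], C Y → (Subgroup.center Y).index < a → Q1 p Y :=
      fun Y _ _ hY h => iha _ h _ Y hY rfl rfl
    have HI2 : ∀ (Y : Type) [Group Y] [Finite Y], C Y → (Subgroup.center Y).index ≤ a →
        Nat.card Y < b → Q1 p Y := by
      intro Y _ _ hY h h'
      rcases h.lt_or_eq with h | h
      · exact HI1 Y hY h
      · exact ihb _ h' Y hY h rfl
    by_cases hN : NN P = ⊤
    · exact wt_top hN
    have HIq : ∀ (K : Subgroup G) [K.Normal], K ≤ Subgroup.center G → K ≠ ⊥ → Q1 p (G ⧸ K) := by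
      intro K _ hK hne
      refine HI2 (G ⧸ K) (hC.quo G K hG) ?_ ?_
      · rw [← ha]
        exact center_index_quot K _ le_rfl
      · rw [← hb]
        have h : Nat.card (G ⧸ K) * Nat.card K = Nat.card G := Subgroup.index_mul_card K
        have hK1 : 1 < Nat.card K := by
          rw [Subgroup.one_lt_card_iff_ne_bot]; exact hne
        have hq : 0 < Nat.card (G ⧸ K) := Nat.card_pos
        rw [← h]
        nlinarith
    by_cases hcyc : IsCyclic (Subgroup.center G)
    swap
    · exact D3m h4 h4a h5 P hcyc HIq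
    by_cases hder : Subgroup.center G ≤ commutator G
    swap
    · exact byfaith h4 h4a h5 P HIq fun nu _ => twist h4 h5 h14 h17 hC P hG hder
        (fun Y _ _ hY hi hc => HI2 Y hY (ha ▸ hi) (hb ▸ hc)) nu
    by_cases hpc : p ∣ Nat.card (Subgroup.center G)
    · exact byfaith h4 h4a h5 P HIq fun nu hnu => pcenter h15 h16 P hder hpc nu hnu
    by_cases hsup : ∀ N : Subgroup G, N.Normal → ¬ N ≤ Subgroup.center G → N ⊔ NN P = ⊤
    swap
    · push Not at hsup
      obtain ⟨N, hNn, hNc, hNs⟩ := hsup
      haveI := hNn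
      set M : Subgroup G := N ⊔ Subgroup.center G with hM
      have hMn : M.Normal := inferInstance
      have hcM : Subgroup.center G < M := by
        refine lt_of_le_of_ne le_sup_right fun h => hNc ?_
        rw [h]
        exact le_sup_left
      have hMi : M.index < a := ha ▸ Subgroup.index_strictAnti hcM
      have hMN : M ⊔ NN P = N ⊔ NN P := by
        rw [hM, sup_assoc, sup_eq_right.mpr (le_NN_of_center P (le_refl (Subgroup.center G)))]
      have hr : M.subtype.range = M := Subgroup.range_subtype M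
      set X : Subgroup G := M ⊔ NN P with hX
      have hNX : NN P ≤ X := le_sup_right
      have hPX : (P : Subgroup G) ≤ X := Subgroup.le_normalizer.trans hNX
      have e1 := D1 (p := p) h1 h2 h6 h3 h4 h5 hC M.subtype M.subtype_injective (by rw [hr]; exact hMn)
        P hG (fun Y _ _ hY hidx => HI1 Y hY (lt_of_le_of_lt hidx (by rw [hr]; exact hMi))) X
        (by rw [hr])
      have hZX : Subgroup.center G ≤ X := (le_of_lt hcM).trans le_sup_left
      have e2 : (Subgroup.center X).index < a := by
        have i1 : (Subgroup.center G).subgroupOf X ≤ Subgroup.center X := by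
          intro x hx
          rw [Subgroup.mem_center_iff]
          intro y
          exact Subtype.ext (Subgroup.mem_center_iff.mp (Subgroup.mem_subgroupOf.mp hx) y)
        have i2 := Subgroup.index_antitone i1
        have i3 : (Subgroup.center G).relIndex X * X.index = (Subgroup.center G).index :=
          Subgroup.relIndex_mul_index hZX
        have i4 : 1 < X.index := by
          have : X.index ≠ 1 := fun h => hNs (by rw [← hMN]; exact Subgroup.index_eq_one.mp h)
          have h0 : X.index ≠ 0 := Subgroup.FiniteIndex.index_ne_zero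
          omega
        have i5 : 0 < (Subgroup.center G).relIndex X := by
          apply Nat.pos_of_ne_zero
          intro h
          rw [h, zero_mul] at i3
          exact (Subgroup.FiniteIndex.index_ne_zero (H := Subgroup.center G)) i3.symm
        have i6 : (Subgroup.center X).index ≤ (Subgroup.center G).relIndex X := i2
        rw [← ha, ← i3]
        nlinarith
      rw [e1, HI1 X (hC.sub G X hG) e2 (P.subtype hPX)]
      exact wt_congr (cl p)
        { toFun := fun x => ⟨x.1.1, (mem_NN_subtype P hPX x.1).mp x.2⟩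
          invFun := fun x => ⟨⟨x.1, hNX x.2⟩, (mem_NN_subtype P hPX ⟨x.1, hNX x.2⟩).mpr x.2⟩
          left_inv := fun _ => rfl
          right_inv := fun _ => rfl
          map_mul' := fun _ _ => rfl }
    by_cases hab : ∀ A : Subgroup G, A.Normal → (∀ a ∈ A, ∀ b ∈ A, a * b = b * a) →
        A ≤ Subgroup.center G
    swap
    · push Not at hab
      obtain ⟨A, hA, hAab, hAc⟩ := hab
      obtain ⟨B, hB, hBA, hBc, hBp⟩ := h12 p G A hA hAab hAc
      rcases hBp with hBp | hBp
      · exfalso
        apply hN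
        rw [← hsup B hB hBc]
        exact (sup_eq_right.mpr ((le_sylow P hB hBp).trans Subgroup.le_normalizer)).symm
      · exact D2 h2 h7 h8 P B hB (fun a ha b hb => hAab a (hBA ha) b (hBA hb)) hBp (hsup B hB hBc)
    by_cases hrad : ∀ N : Subgroup G, N.Normal → IsSolvable N → N ≤ Subgroup.center G
    swap
    · push Not at hrad
      obtain ⟨B, hB, hBs, hBc⟩ := hrad
      exact byfaith h4 h4a h5 P HIq fun nu hnu => solv g1 g2 g3 g4 g5 P hN hpc hab hsup B hB hBs hBc
        nu hnu
    by_cases hmono : ∀ N₁ N₂ : Subgroup G, N₁.Normal → N₂.Normal →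
        N₁ ⊓ N₂ ≤ Subgroup.center G → N₁ ≤ Subgroup.center G ∨ N₂ ≤ Subgroup.center G
    swap
    · push Not at hmono
      obtain ⟨N₁, N₂, hn1, hn2, hint, hc1, hc2⟩ := hmono
      exact absurd (h9 p G P N₁ N₂ hn1 hn2 hint (hsup N₁ hn1 hc1) (hsup N₂ hn2 hc2)) hN
    exact hred G hG P ⟨hcyc, hpc, hder, hN, hrad, hsup, hmono⟩
  exact fun G _ _ hG => key _ _ G hG rfl rfl

end

end Pool.Agent.K3h83.IN
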