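import Pool.Agent.K3h83.IN.Stm

/-!
# The relative form: the characters over a `P`-invariant character of a normal subgroup
-/

set_option autoImplicit false
set_option linter.unusedSectionVars false

open scoped BigOperators Classical

noncomputable section

namespace Pool.Agent.K3h83.IN

open Pool.Agent.Helper884 Pool.Agent.K3h3.KB Pool.Agent.K3h3.MK
open Pool.Agent.H254R3.IN (IsIrr mem_Irr)
open IC (Irr)

/-- the inertia group -/
def Tst {L G : Type} [Group L] [Group G] (j : L →* G) (hj : Function.Injective j)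
    (hn : j.range.Normal) (θ : L → ℂ) : Subgroup G where
  carrier := {x | fixes j θ x}
  mul_mem' := by
    intro x y hx hy l l' h
    obtain ⟨m, hm⟩ := hn.conj_mem (j l) ⟨l, rfl⟩ y
    have h1 := hy l m hm.symm
    have h2 : x * j m * x⁻¹ = j l' := by
      rw [hm, ← h]
      group
    rw [hx m l' h2, h1]
  one_mem' := by
    intro l l' h
    have h1 : j l = j l' := by
      rw [← h]
      group
    rw [hj h1]
  inv_mem' := by
    intro x hx l l' h
    have h1 : x * j l' * x⁻¹ = j l := by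
      rw [← h]
      group
    exact (hx l' l h1).symm

theorem mem_Tst {L G : Type} [Group L] [Group G] {j : L →* G} {hj : Function.Injective j}
    {hn : j.range.Normal} {θ : L → ℂ} {x : G} : x ∈ Tst j hj hn θ ↔ fixes j θ x := Iff.rfl

/-- the normal subgroup fixes its characters -/
theorem range_le_Tst {L G : Type} [Group L] [Group G] (j : L →* G) (hj : Function.Injective j)
    (hn : j.range.Normal) {θ : L → ℂ} (hθ : IsIrr θ) : j.range ≤ Tst j hj hn θ := by
  rintro _ ⟨m, rfl⟩ l l' h
  have h1 : m * l * m⁻¹ = l' := by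
    apply hj
    rw [map_mul, map_mul, map_inv, h]
  rw [← h1]
  exact hθ.conj l m

theorem cl_congr (p : ℕ) [Fact p.Prime] {a b : ℕ} (h : (a : ZMod p) = (b : ZMod p)) :
    cl p a = cl p b := by
  change cls p a = cls p b
  unfold cls
  by_cases ha : (a : ZMod p) = 0
  · rw [dif_pos ha, dif_pos (h ▸ ha)]
  · rw [dif_neg ha, dif_neg (h ▸ ha)]
    congr 2
    ext
    simp [h]

/-- the homomorphism into a subgroup containing the range -/
def cod {L G : Type} [Group L] [Group G] (j : L →* G) (X : Subgroup G) (h : j.range ≤ X) : L →* X :=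
  j.codRestrict X fun l => h ⟨l, rfl⟩

@[simp] theorem cod_coe {L G : Type} [Group L] [Group G] (j : L →* G) (X : Subgroup G)
    (h : j.range ≤ X) (l : L) : (cod j X h l : G) = j l := rfl

theorem cod_inj {L G : Type} [Group L] [Group G] {j : L →* G} (hj : Function.Injective j)
    (X : Subgroup G) (h : j.range ≤ X) : Function.Injective (cod j X h) := by
  intro a b hab
  exact hj (congrArg Subtype.val hab)

theorem cod_range {L G : Type} [Group L] [Group G] (j : L →* G) (X : Subgroup G)
    (h : j.range ≤ X) : (cod j X h).range = j.range.subgroupOf X := by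
  ext x
  rw [Subgroup.mem_subgroupOf]
  constructor
  · rintro ⟨l, rfl⟩
    exact ⟨l, rfl⟩
  · rintro ⟨l, hl⟩
    exact ⟨l, Subtype.ext hl⟩

theorem cod_normal {L G : Type} [Group L] [Group G] (j : L →* G) (hn : j.range.Normal)
    (X : Subgroup G) (h : j.range ≤ X) : (cod j X h).range.Normal := by
  rw [cod_range]
  exact hn.subgroupOf X

/-- the equality of the weighted numbers for the Sylow `p`-subgroups of `Y` -/
def Q1 (p : ℕ) [Fact p.Prime] (Y : Type) [Group Y] [Finite Y] : Prop :=
  ∀ Q : Sylow p Y, wt (cl p) Y = wt (cl p) (NN Q)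

/-- classes of groups closed under isomorphisms, subgroups, quotients and central extensions with
cyclic kernel -/
structure Cls (C : ∀ (G : Type) [Group G], Prop) : Prop where
  iso : ∀ (G H : Type) [Group G] [Group H] [Finite G], Nonempty (G ≃* H) → C G → C H
  sub : ∀ (G : Type) [Group G] [Finite G] (H : Subgroup G), C G → C H
  quo : ∀ (G : Type) [Group G] [Finite G] (K : Subgroup G) [K.Normal], C G → C (G ⧸ K)
  ext : ∀ (G : Type) [Group G] [Finite G] (K : Subgroup G) [K.Normal], K ≤ Subgroup.center G →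
    IsCyclic K → C (G ⧸ K) → C G

section

variable {p : ℕ} [hp : Fact p.Prime]

theorem le_NN_of_center {G : Type} [Group G] (P : Sylow p G) {K : Subgroup G}
    (h : K ≤ Subgroup.center G) : K ≤ NN P := by
  intro x hx
  rw [Subgroup.mem_normalizer_iff]
  intro y
  have h1 := (Subgroup.mem_center_iff.mp (h hx)) y
  rw [show x * y * x⁻¹ = y by rw [← h1, mul_inv_cancel_right]]

/-- normalizers of images, central kernel -/
theorem comap_norm (h5 : S5a) {G Q : Type} [Group G] [Finite G] [Group Q] (r : G →* Q)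
    (hr : Function.Surjective r) (hc : r.ker ≤ Subgroup.center G) (P : Sylow p G) :
    (Subgroup.normalizer ((((P : Subgroup G).map r : Subgroup Q)) : Set Q)).comap r = NN P := by
  rw [h5 p G Q r hr P]
  exact sup_eq_right.mpr (le_NN_of_center P hc)

theorem map_NN (h5 : S5a) {G Q : Type} [Group G] [Finite G] [Group Q] [Finite Q] (r : G →* Q)
    (hr : Function.Surjective r) (hc : r.ker ≤ Subgroup.center G) (P : Sylow p G) :
    (NN P).map r = NN (P.mapSurjective hr) := by
  have h1 := comap_norm h5 r hr hc P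
  have h2 : (NN (P.mapSurjective hr)) =
      Subgroup.normalizer ((((P : Subgroup G).map r : Subgroup Q)) : Set Q) := rfl
  rw [h2, ← h1, Subgroup.map_comap_eq_self_of_surjective hr]

/-- the central case with `H = N_S(Q)` -/
theorem central (h5 : S5a) (h4 : S4) {S : Type} [Group S] [Finite S] (Z : Subgroup S)
    (hZ : Z ≤ Subgroup.center S) (Q : Sylow p S) (nu : Z →* ℂˣ)
    (hQ : ∀ (K : Subgroup S) [K.Normal], K ≤ Z → nu.ker.map Z.subtype ≤ K → Q1 p (S ⧸ K)) :
    wo (cl p) Z.subtype (fun a => ((nu a : ℂˣ) : ℂ)) =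
      wo (cl p) (Subgroup.inclusion (le_NN_of_center Q hZ)) (fun a => ((nu a : ℂˣ) : ℂ)) := by
  refine h4 p S Z (NN Q) hZ _ nu fun K _ hK hnu => ?_
  have hs : Function.Surjective (QuotientGroup.mk' K) := QuotientGroup.mk'_surjective K
  rw [hQ K hK hnu (Q.mapSurjective hs)]
  exact wt_congr (cl p) (MulEquiv.subgroupCongr (map_NN h5 (QuotientGroup.mk' K) hs
    (by rw [QuotientGroup.ker_mk']; exact hK.trans hZ) Q)).symm

theorem wo_incl {R : Type} [CommRing R] (w : ℕ →* R) {S : Type} [Group S] [Finite S]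
    {Z H H' : Subgroup S} (e : H = H') (h : Z ≤ H) (h' : Z ≤ H') (θ : Z → ℂ) :
    wo w (Subgroup.inclusion h) θ = wo w (Subgroup.inclusion h') θ := by
  subst e
  rfl

theorem wo_incl_top {R : Type} [CommRing R] (w : ℕ →* R) {S : Type} [Group S] [Finite S]
    {Z H : Subgroup S} (e : H = ⊤) (h : Z ≤ H) (θ : Z → ℂ) :
    wo w (Subgroup.inclusion h) θ = wo w Z.subtype θ := by
  subst e
  exact wo_congr w (MulEquiv.refl Z) Subgroup.topEquiv _ _ (fun _ => rfl) θ θ fun _ => rfl

theorem map_center {G Q : Type} [Group G] [Group Q] (f : G →* Q) (hf : Function.Surjective f)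
    {Z : Subgroup G} (hZ : Z ≤ Subgroup.center G) : Z.map f ≤ Subgroup.center Q := by
  rintro _ ⟨z, hz, rfl⟩
  rw [Subgroup.mem_center_iff]
  intro y
  obtain ⟨x, rfl⟩ := hf y
  rw [← map_mul, ← map_mul, (Subgroup.mem_center_iff.mp (hZ hz)) x]

/-- the index of the center of a quotient -/
theorem center_index_quot {S : Type} [Group S] [Finite S] (K Z : Subgroup S) [K.Normal]
    (hZ : Z ≤ Subgroup.center S) : (Subgroup.center (S ⧸ K)).index ≤ Z.index := by
  have hs := QuotientGroup.mk'_surjective K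
  have h1 := Subgroup.index_dvd_of_le (map_center (QuotientGroup.mk' K) hs hZ)
  have h2 := Subgroup.index_map_dvd Z hs
  exact Nat.le_of_dvd (Nat.pos_of_ne_zero Subgroup.FiniteIndex.index_ne_zero) (h1.trans h2)

theorem rel_inv (h3 : S3) (h4 : S4) (h5 : S5a) {C : ∀ (G : Type) [Group G], Prop} (hC : Cls C)
    {L T : Type} [Group L] [Finite L] [Group T] [Finite T] (j : L →* T)
    (hj : Function.Injective j) (hn : j.range.Normal) (θ : L → ℂ) (hθ : IsIrr θ)
    (hfix : ∀ x, fixes j θ x) (P : Sylow p T) (hT : C T)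
    (hI : ∀ (Y : Type) [Group Y] [Finite Y], C Y → (Subgroup.center Y).index ≤ j.range.index →
      Q1 p Y)
    (X : Subgroup T) (hX : X = j.range ⊔ NN P) (jX : L →* X) (hjX : ∀ l, (jX l : T) = j l) :
    wo (cl p) j θ = wo (cl p) jX θ := by
  haveI := hn
  have hrs : Function.Surjective (QuotientGroup.mk' j.range) := QuotientGroup.mk'_surjective _
  obtain ⟨S, _, _, q, lam, hq, hqc, hqy, key⟩ := h3 L T (T ⧸ j.range) j hj θ hθ hfix
    (QuotientGroup.mk' j.range) hrs (QuotientGroup.ker_mk' _)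
  obtain ⟨Q, hQ⟩ := Sylow.mapSurjective_surjective hq p (P.mapSurjective hrs)
  have hQ' : (Q : Subgroup S).map q = (P : Subgroup T).map (QuotientGroup.mk' j.range) :=
    congrArg (fun R : Sylow p (T ⧸ j.range) => (R : Subgroup (T ⧸ j.range))) hQ
  have hcomap : (X.map (QuotientGroup.mk' j.range)).comap q = NN Q := by
    have e1 := h5 p T _ (QuotientGroup.mk' j.range) hrs P
    have e2 : X.map (QuotientGroup.mk' j.range) = Subgroup.normalizer
        ((((P : Subgroup T).map (QuotientGroup.mk' j.range) : Subgroup (T ⧸ j.range))) :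
          Set (T ⧸ j.range)) := by
      have e3 := e1
      rw [QuotientGroup.ker_mk', ← hX] at e3
      rw [← e3, Subgroup.map_comap_eq_self_of_surjective hrs]
    rw [e2, ← hQ', comap_norm h5 q hq hqc Q]
  have k1 := key (RR p) (cl p) X jX hjX
  have k2 := key (RR p) (cl p) ⊤ (cod j ⊤ le_top) fun _ => rfl
  have t1 : wo (cl p) j θ = wo (cl p) (cod j ⊤ le_top) θ :=
    wo_congr (cl p) (MulEquiv.refl L) Subgroup.topEquiv.symm j _ (fun l => rfl) θ θ fun _ => rfl
  have htop : ((⊤ : Subgroup T).map (QuotientGroup.mk' j.range)).comap q = ⊤ := by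
    rw [Subgroup.map_top_of_surjective _ hrs, Subgroup.comap_top]
  have hS : C S := by
    haveI : q.ker.Normal := inferInstance
    refine hC.ext S q.ker hqc hqy ?_
    exact hC.iso (T ⧸ j.range) (S ⧸ q.ker)
      ⟨(QuotientGroup.quotientKerEquivOfSurjective q hq).symm⟩ (hC.quo T j.range hT)
  have hidx : q.ker.index = j.range.index :=
    Nat.card_congr (QuotientGroup.quotientKerEquivOfSurjective q hq).toEquiv
  have c := central h5 h4 q.ker hqc Q lam fun K _ hK _ =>
    hI (S ⧸ K) (hC.quo S K hS) ((center_index_quot K q.ker hqc).trans hidx.le)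
  rw [t1, k2, k1, wo_incl_top (cl p) htop, c]
  congr 1
  exact (wo_incl (cl p) hcomap _ _ _).symm

theorem mem_NN_subtype {G : Type} [Group G] (P : Sylow p G) {T : Subgroup G}
    (h : (P : Subgroup G) ≤ T) (t : T) : t ∈ NN (P.subtype h) ↔ (t : G) ∈ NN P := by
  rw [Subgroup.mem_normalizer_iff, Subgroup.mem_normalizer_iff]
  constructor
  · intro H y
    constructor
    · intro hy
      exact (H ⟨y, h hy⟩).mp hy
    · intro hy
      have h1 : y ∈ T := by
        have h2 := T.mul_mem (T.mul_mem (T.inv_mem t.2) (h hy)) t.2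
        have e : (t : G)⁻¹ * (t * y * (t : G)⁻¹) * t = y := by group
        rwa [e] at h2
      exact (H ⟨y, h1⟩).mpr hy
  · intro H y
    exact H y

theorem sup_subgroupOf {G : Type} [Group G] (P : Sylow p G) {N T : Subgroup G} (hN : N.Normal)
    (h : (P : Subgroup G) ≤ T) (hT : N ≤ T) :
    (N ⊔ NN P).subgroupOf T = N.subgroupOf T ⊔ NN (P.subtype h) := by
  haveI := hN
  apply le_antisymm
  · intro x hx
    rw [Subgroup.mem_subgroupOf, ← SetLike.mem_coe, Subgroup.normal_mul] at hx
    obtain ⟨a, ha, b, hb, hab⟩ := Set.mem_mul.mp hx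
    have haT : a ∈ T := hT ha
    have hbT : b ∈ T := by
      have e : b = a⁻¹ * (x : G) := by rw [← hab]; group
      rw [e]
      exact T.mul_mem (T.inv_mem haT) x.2
    have e : x = (⟨a, haT⟩ : T) * ⟨b, hbT⟩ := Subtype.ext hab.symm
    rw [e]
    refine Subgroup.mul_mem_sup ?_ ?_
    · exact Subgroup.mem_subgroupOf.mpr ha
    · exact (mem_NN_subtype P h ⟨b, hbT⟩).mpr hb
  · refine sup_le ?_ ?_
    · intro x hx
      exact Subgroup.mem_subgroupOf.mpr (Subgroup.mem_sup_left (Subgroup.mem_subgroupOf.mp hx))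
    · intro x hx
      exact Subgroup.mem_subgroupOf.mpr (Subgroup.mem_sup_right ((mem_NN_subtype P h x).mp hx))

theorem fixes_sub {L G : Type} [Group L] [Group G] {j : L →* G} {θ : L → ℂ} {X : Subgroup G}
    {jX : L →* X} (hjX : ∀ l, (jX l : G) = j l) (x : X) : fixes jX θ x ↔ fixes j θ (x : G) := by
  constructor
  · intro H l l' h
    exact H l l' (Subtype.ext (by simpa [hjX] using h))
  · intro H l l' h
    refine H l l' ?_
    have := congrArg Subtype.val h
    simpa [hjX] using this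

/-- the two ways to write an intersection -/
def swapEquiv {G : Type} [Group G] (T X : Subgroup G) : T.subgroupOf X ≃* X.subgroupOf T where
  toFun x := ⟨⟨x.1.1, x.2⟩, x.1.2⟩
  invFun x := ⟨⟨x.1.1, x.2⟩, x.1.2⟩
  left_inv _ := rfl
  right_inv _ := rfl
  map_mul' _ _ := rfl

theorem rel (h1 : S1) (h6 : S6) (h3 : S3) (h4 : S4) (h5 : S5a)
    {C : ∀ (G : Type) [Group G], Prop} (hC : Cls C)
    {L G : Type} [Group L] [Finite L] [Group G] [Finite G] (j : L →* G)
    (hj : Function.Injective j) (hn : j.range.Normal) (θ : L → ℂ) (hθ : IsIrr θ)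
    (P : Sylow p G) (hP : ∀ x ∈ P, fixes j θ x) (hG : C G)
    (hI : ∀ (Y : Type) [Group Y] [Finite Y], C Y → (Subgroup.center Y).index ≤ j.range.index →
      Q1 p Y)
    (X : Subgroup G) (hX : X = j.range ⊔ NN P) (jX : L →* X) (hjX : ∀ l, (jX l : G) = j l) :
    wo (cl p) j θ = wo (cl p) jX θ := by
  have hLX : j.range ≤ X := hX ▸ le_sup_left
  have hNX : NN P ≤ X := hX ▸ le_sup_right
  have hejX : jX = cod j X hLX := by
    ext l
    exact hjX l
  subst hejX
  have hLT : j.range ≤ Tst j hj hn θ := range_le_Tst j hj hn hθ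
  have hPT : (P : Subgroup G) ≤ Tst j hj hn θ := fun x hx => hP x hx
  have e1 := h1 (RR p) (cl p) L G j hj hn θ hθ (Tst j hj hn θ) (fun x => Iff.rfl)
    (cod j _ hLT) fun _ => rfl
  have hLTX : (cod j X hLX).range ≤ (Tst j hj hn θ).subgroupOf X := by
    rintro _ ⟨l, rfl⟩
    exact Subgroup.mem_subgroupOf.mpr (hLT ⟨l, rfl⟩)
  have e2 := h1 (RR p) (cl p) L X (cod j X hLX) (cod_inj hj X hLX) (cod_normal j hn X hLX) θ hθ
    ((Tst j hj hn θ).subgroupOf X)
    (fun x => by rw [Subgroup.mem_subgroupOf, fixes_sub hjX, mem_Tst])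
    (cod (cod j X hLX) _ hLTX) fun _ => rfl
  have e3 : cl p (Tst j hj hn θ).index = cl p ((Tst j hj hn θ).subgroupOf X).index :=
    cl_congr p (h6 p G P (Tst j hj hn θ) X hPT hNX)
  have hLXT : (cod j _ hLT).range ≤ X.subgroupOf (Tst j hj hn θ) := by
    rintro _ ⟨l, rfl⟩
    exact Subgroup.mem_subgroupOf.mpr (hLX ⟨l, rfl⟩)
  have e4 := rel_inv (p := p) h3 h4 h5 hC (cod j _ hLT) (cod_inj hj _ hLT) (cod_normal j hn _ hLT)
    θ hθ (fun x => (fixes_sub (fun _ => rfl) x).mpr x.2) (P.subtype hPT) (hC.sub G _ hG)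
    (fun Y _ _ hY hidx => hI Y hY (hidx.trans ?_)) (X.subgroupOf (Tst j hj hn θ))
    (by rw [hX, cod_range]; exact sup_subgroupOf P hn hPT hLT)
    (cod (cod j _ hLT) _ hLXT) fun _ => rfl
  · have e5 : wo (cl p) (cod (cod j X hLX) _ hLTX) θ = wo (cl p) (cod (cod j _ hLT) _ hLXT) θ :=
      wo_congr (cl p) (MulEquiv.refl L) (swapEquiv (Tst j hj hn θ) X) _ _ (fun _ => rfl) θ θ
        fun _ => rfl
    rw [e1, e2, e3, e4, e5]
  · rw [cod_range]
    have h7 : (j.range.subgroupOf (Tst j hj hn θ)).index ∣ j.range.index :=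
      Subgroup.relIndex_dvd_index_of_normal j.range _
    exact Nat.le_of_dvd (Nat.pos_of_ne_zero Subgroup.FiniteIndex.index_ne_zero) h7

/-- the total numbers -/
theorem D1 (h1 : S1) (h2 : S2) (h6 : S6) (h3 : S3) (h4 : S4) (h5 : S5a)
    {C : ∀ (G : Type) [Group G], Prop} (hC : Cls C)
    {L G : Type} [Group L] [Finite L] [Group G] [Finite G] (j : L →* G)
    (hj : Function.Injective j) (hn : j.range.Normal)
    (P : Sylow p G) (hG : C G)
    (hI : ∀ (Y : Type) [Group Y] [Finite Y], C Y → (Subgroup.center Y).index ≤ j.range.index →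
      Q1 p Y)
    (X : Subgroup G) (hX : X = j.range ⊔ NN P) :
    wt (cl p) G = wt (cl p) X := by
  have hLX : j.range ≤ X := hX ▸ le_sup_left
  have hNX : NN P ≤ X := hX ▸ le_sup_right
  have hPX : (P : Subgroup G) ≤ X := Subgroup.le_normalizer.trans hNX
  haveI := Fintype.ofFinite L
  have e1 := h2 p L G j hj hn P
  have e2 := h2 p L X (cod j X hLX) (cod_inj hj X hLX) (cod_normal j hn X hLX) (P.subtype hPX)
  have c0 : ∀ θ : L → ℂ, Nat.card {x : X // x ∈ NN (P.subtype hPX) ∧ fixes (cod j X hLX) θ x} =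
      Nat.card {x : G // x ∈ NN P ∧ fixes j θ x} := by
    intro θ
    refine Nat.card_congr
      { toFun := fun x => ⟨x.1.1, (mem_NN_subtype P hPX x.1).mp x.2.1,
          (fixes_sub (fun _ => rfl) x.1).mp x.2.2⟩
        invFun := fun x => ⟨⟨x.1, hNX x.2.1⟩, (mem_NN_subtype P hPX ⟨x.1, hNX x.2.1⟩).mpr x.2.1,
          (fixes_sub (fun _ => rfl) ⟨x.1, hNX x.2.1⟩).mpr x.2.2⟩
        left_inv := fun _ => rfl
        right_inv := fun _ => rfl }
  have c1 : Nat.card (NN (P.subtype hPX)) = Nat.card (NN P) := by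
    refine Nat.card_congr
      { toFun := fun x => ⟨x.1.1, (mem_NN_subtype P hPX x.1).mp x.2⟩
        invFun := fun x => ⟨⟨x.1, hNX x.2⟩, (mem_NN_subtype P hPX ⟨x.1, hNX x.2⟩).mpr x.2⟩
        left_inv := fun _ => rfl
        right_inv := fun _ => rfl }
  have c2 : (Irr L).filter (fun θ => ∀ x ∈ P.subtype hPX, fixes (cod j X hLX) θ x) =
      (Irr L).filter (fun θ => ∀ x ∈ P, fixes j θ x) := by
    refine Finset.filter_congr fun θ _ => ?_
    constructor
    · intro H x hx
      exact (fixes_sub (jX := cod j X hLX) (fun _ => rfl) ⟨x, hPX hx⟩).mp (H ⟨x, hPX hx⟩ hx)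
    · intro H x hx
      exact (fixes_sub (jX := cod j X hLX) (fun _ => rfl) x).mpr (H x hx)
  rw [c1, c2] at e2
  have e3 : (Nat.card (NN P) : RR p) * wt (cl p) G = (Nat.card (NN P) : RR p) * wt (cl p) X := by
    rw [e1, e2]
    refine Finset.sum_congr rfl fun θ hθ => ?_
    rw [Finset.mem_filter] at hθ
    rw [c0, rel h1 h6 h3 h4 h5 hC j hj hn θ (mem_Irr.mp hθ.1) P hθ.2 hG hI X hX (cod j X hLX)
      fun _ => rfl]
  exact natCast_mul_inj p Nat.card_pos.ne' e3

end

end Pool.Agent.K3h83.IN
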