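import Pool.Agent.K3h83.IN.Stm

/-!
# Further statements: the center of a minimal counterexample
-/

set_option autoImplicit false

open scoped BigOperators Classical

noncomputable section

namespace Pool.Agent.K3h83.IN

open Pool.Agent.Helper884 Pool.Agent.K3h3.KB Pool.Agent.K3h3.MK
open Pool.Agent.H254R3.IN (IsIrr mem_Irr)
open IC (Irr)

/-- changing the central extension: if `nu ^ e` extends to a linear character of `G` then the
characters over `nu` are the characters of a central extension of `G / Z` with a cyclic kernel of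
order at most `e` -/
def S14 : Prop := ∀ (G Q : Type) [Group G] [Finite G] [Group Q] (Z : Subgroup G)
  (_ : Z ≤ Subgroup.center G) (nu : Z →* ℂˣ) (e : ℕ) (_ : 0 < e) (f : G →* ℂˣ)
  (_ : ∀ z : Z, f z = nu z ^ e) (r : G →* Q) (_ : Function.Surjective r) (_ : r.ker = Z),
  ∃ (S : Type) (_ : Group S) (_ : Finite S) (q : S →* Q) (lam : q.ker →* ℂˣ),
    Function.Surjective q ∧ q.ker ≤ Subgroup.center S ∧ IsCyclic q.ker ∧ Nat.card q.ker ≤ e ∧
    ∀ (R : Type) [CommRing R] (w : ℕ →* R) (X : Subgroup G) (hX : Z ≤ X),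
      wo w (Subgroup.inclusion hX) (fun a => ((nu a : ℂˣ) : ℂ)) =
        wo w (Subgroup.inclusion (kle q (X.map r))) fun a => ((lam a : ℂˣ) : ℂ)

/-- no characters of degree prime to `p` over `nu` if `nu` is not trivial on `Z ∩ P'` -/
def S15 : Prop := ∀ (p : ℕ) [Fact p.Prime] (A G : Type) [Group A] [Finite A] [Group G] [Finite G]
  (P : Sylow p G) (j : A →* G) (_ : j.range ≤ Subgroup.center G) (nu : A →* ℂˣ) (a : A)
  (_ : j a ∈ ⁅(P : Subgroup G), (P : Subgroup G)⁆) (_ : nu a ≠ 1),
  wo (cl p) j (fun a => ((nu a : ℂˣ) : ℂ)) = 0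

/-- central `p`-elements of the commutator subgroup -/
def S16 : Prop := ∀ (p : ℕ) [Fact p.Prime] (G : Type) [Group G] [Finite G]
  (P : Sylow p G) (z : G) (_ : z ∈ Subgroup.center G) (_ : z ∈ P) (_ : z ∈ commutator G),
  z ∈ ⁅(P : Subgroup G), (P : Subgroup G)⁆

/-- extension of linear characters -/
def S17 : Prop := ∀ (G : Type) [Group G] [Finite G] (Z : Subgroup G)
  (mu : Z →* ℂˣ) (_ : ∀ z : Z, (z : G) ∈ commutator G → mu z = 1),
  ∃ f : G →* ℂˣ, ∀ z : Z, f z = mu z

end Pool.Agent.K3h83.IN
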