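import Pool.Agent.K3h83.IN.Stm2

/-!
# Statements for the solvable case: automorphisms of groups of symplectic type

`M` is a finite group such that `M / Z(M)` is an elementary abelian `q`-group and `σ` an irreducible
representation of `M` which is faithful on `Z(M)`. A group `X` acts on `M` and fixes `Z(M)`. `E ≤ X` is an
elementary abelian `p`-group, `p ≠ q`, with `C_M(E) = Z(M)` and `R ≤ X` is a `q`-group normalizing `E`.
-/

set_option autoImplicit false

open scoped BigOperators Classical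

noncomputable section

namespace Pool.Agent.K3h83.IN

open Pool.Agent.Helper884 Pool.Agent.K3h3.KB Pool.Agent.K3h3.MK
open Pool.Agent.H254R3.IN (IsIrr mem_Irr)
open IC (Irr)

/-- the hypotheses on the group `M` -/
structure Sy (q : ℕ) (M : Type) [Group M] : Prop where
  pow : ∀ m : M, m ^ q ∈ Subgroup.center M
  com : ∀ a b : M, a * b * a⁻¹ * b⁻¹ ∈ Subgroup.center M

/-- the hypotheses on the action -/
structure SD (p q : ℕ) {M X : Type} [Group M] [Group X] (φ : X →* MulAut M) (E R : Subgroup X) :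
    Prop where
  ne : p ≠ q
  cen : ∀ (x : X) (z : M), z ∈ Subgroup.center M → φ x z = z
  sy : Sy q M
  Eab : ∀ a ∈ E, ∀ b ∈ E, a * b = b * a
  Epow : ∀ a ∈ E, a ^ p = 1
  RE : ∀ r ∈ R, ∀ e ∈ E, r * e * r⁻¹ ∈ E
  Rq : IsPGroup q R
  fpf : ∀ m : M, (∀ e ∈ E, φ e m = m) → m ∈ Subgroup.center M

/-- the elements of `M` fixed by `H` -/
def Fx {M X : Type} [Group M] [Group X] (φ : X →* MulAut M) (H : Subgroup X) : Subgroup M where
  carrier := {m | ∀ h ∈ H, φ h m = m}
  mul_mem' := by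
    intro a b ha hb h hh
    rw [map_mul, ha h hh, hb h hh]
  one_mem' := fun h _ => map_one _
  inv_mem' := by
    intro a ha h hh
    rw [map_inv, ha h hh]

theorem mem_Fx {M X : Type} [Group M] [Group X] {φ : X →* MulAut M} {H : Subgroup X} {m : M} :
    m ∈ Fx φ H ↔ ∀ h ∈ H, φ h m = m := Iff.rfl

/-- a subgroup `M₀` of `M` containing the center is non-degenerate -/
structure Nd {M : Type} [Group M] (M₀ : Subgroup M) : Prop where
  le : Subgroup.center M ≤ M₀
  nd : ∀ m ∈ M₀, (∀ n ∈ M₀, m * n = n * m) → m ∈ Subgroup.center M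

/-- the stabilizer of a subgroup of `M` -/
def St {M X : Type} [Group M] [Group X] (φ : X →* MulAut M) (M₀ : Subgroup M) : Subgroup X where
  carrier := {x | ∀ m : M, m ∈ M₀ ↔ φ x m ∈ M₀}
  mul_mem' := by
    intro a b ha hb m
    rw [map_mul, MulAut.mul_apply, ← ha, ← hb]
  one_mem' := by
    intro m
    rw [map_one, MulAut.one_apply]
  inv_mem' := by
    intro a ha m
    rw [ha (φ a⁻¹ m), ← MulAut.mul_apply, ← map_mul, mul_inv_cancel, map_one, MulAut.one_apply]

theorem mem_St {M X : Type} [Group M] [Group X] {φ : X →* MulAut M} {M₀ : Subgroup M} {x : X} :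
    x ∈ St φ M₀ ↔ ∀ m : M, m ∈ M₀ ↔ φ x m ∈ M₀ := Iff.rfl

/-- the action of the stabilizer on `M₀` -/
def ra {M X : Type} [Group M] [Group X] (φ : X →* MulAut M) (M₀ : Subgroup M) :
    St φ M₀ →* MulAut M₀ where
  toFun x :=
    { toFun := fun m => ⟨φ x.1 m, (x.2 m).mp m.2⟩
      invFun := fun m => ⟨φ x.1⁻¹ m, ((St φ M₀).inv_mem x.2 m).mp m.2⟩
      left_inv := fun m => Subtype.ext (by
        change φ x.1⁻¹ (φ x.1 m) = m
        rw [← MulAut.mul_apply, ← map_mul, inv_mul_cancel, map_one, MulAut.one_apply])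
      right_inv := fun m => Subtype.ext (by
        change φ x.1 (φ x.1⁻¹ m) = m
        rw [← MulAut.mul_apply, ← map_mul, mul_inv_cancel, map_one, MulAut.one_apply])
      map_mul' := fun a b => Subtype.ext (map_mul (φ x.1) (a : M) b) }
  map_one' := by
    ext m
    change φ (1 : X) (m : M) = m
    rw [map_one, MulAut.one_apply]
  map_mul' := by
    intro a b
    ext m
    change φ ((a : X) * b) (m : M) = φ (a : X) (φ (b : X) m)
    rw [map_mul, MulAut.mul_apply]

@[simp] theorem ra_coe {M X : Type} [Group M] [Group X] (φ : X →* MulAut M) (M₀ : Subgroup M)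
    (x : St φ M₀) (m : M₀) : ((ra φ M₀ x m : M₀) : M) = φ (x : X) m := rfl

/-- a linear action of `R` on the space of `σ` compatible with the action on `M` -/
def Lift {M X V : Type} [Group M] [Group X] [AddCommGroup V] [Module ℂ V] (φ : X →* MulAut M)
    (R : Subgroup X) (σ : Representation ℂ M V) : Prop :=
  ∃ W : Representation ℂ R V, (∀ (r : R) (m : M) (v : V), W r (σ m v) = σ (φ r m) (W r v)) ∧
    ∀ r : R, (∀ m, φ r m = m) → W r = 1

/-- all irreducible representations of `M` which are faithful on the center have a lift -/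
def AllLift {M X : Type} [Group M] [Group X] (φ : X →* MulAut M) (R : Subgroup X) : Prop :=
  ∀ (V : Type) [AddCommGroup V] [Module ℂ V] [FiniteDimensional ℂ V] (σ : Representation ℂ M V),
    σ.IsIrreducible → (∀ z ∈ Subgroup.center M, σ z = 1 → z = 1) → Lift φ R σ

/-- the main statement -/
def TW : Prop := ∀ (p q : ℕ) [Fact p.Prime] [Fact q.Prime] (M X : Type) [Group M] [Finite M]
  [Group X] [Finite X] (φ : X →* MulAut M) (E R : Subgroup X), SD p q φ E R → AllLift φ R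

/-- fixed points modulo the center are fixed points -/
def T1 : Prop := ∀ (p q : ℕ) [Fact p.Prime] [Fact q.Prime] (M X : Type) [Group M] [Finite M]
  [Group X] [Finite X] (φ : X →* MulAut M) (E R : Subgroup X), SD p q φ E R →
  ∀ (e : X) (_ : e ∈ E) (m : M), φ e m * m⁻¹ ∈ Subgroup.center M → φ e m = m

/-- the fixed points of a subgroup of `E` are non-degenerate -/
def T2 : Prop := ∀ (p q : ℕ) [Fact p.Prime] [Fact q.Prime] (M X : Type) [Group M] [Finite M]
  [Group X] [Finite X] (φ : X →* MulAut M) (E R : Subgroup X), SD p q φ E R →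
  ∀ H : Subgroup X, H ≤ E → Nd (Fx φ H)

/-- the fixed points of two subgroups commute -/
def T3 : Prop := ∀ (p q : ℕ) [Fact p.Prime] [Fact q.Prime] (M X : Type) [Group M] [Finite M]
  [Group X] [Finite X] (φ : X →* MulAut M) (E R : Subgroup X), SD p q φ E R →
  ∀ H₁ H₂ : Subgroup X, H₁ ⊔ H₂ = E → ∀ a ∈ Fx φ H₁, ∀ b ∈ Fx φ H₂, a * b = b * a

/-- a subgroup of index `p` with non-central fixed points -/
def T4 : Prop := ∀ (p q : ℕ) [Fact p.Prime] [Fact q.Prime] (M X : Type) [Group M] [Finite M]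
  [Group X] [Finite X] (φ : X →* MulAut M) (E R : Subgroup X), SD p q φ E R →
  Subgroup.center M ≠ ⊤ →
  ∃ H : Subgroup X, H ≤ E ∧ H.relIndex E = p ∧ Fx φ H ≠ Subgroup.center M

/-- orthogonal complements of non-degenerate subgroups -/
def T5 : Prop := ∀ (q : ℕ) [Fact q.Prime] (M : Type) [Group M] [Finite M], Sy q M →
  IsCyclic (Subgroup.center M) → ∀ M₀ : Subgroup M, Nd M₀ →
  Nd (Subgroup.centralizer (M₀ : Set M)) ∧
  ∀ m : M, ∃ a ∈ M₀, ∃ b ∈ Subgroup.centralizer (M₀ : Set M), m = a * b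

/-- irreducible representations with the same faithful central character are isomorphic -/
def T7 : Prop := ∀ (q : ℕ) [Fact q.Prime] (M : Type) [Group M] [Finite M], Sy q M →
  ∀ (V V' : Type) [AddCommGroup V] [Module ℂ V] [FiniteDimensional ℂ V] [AddCommGroup V']
  [Module ℂ V'] [FiniteDimensional ℂ V'] (σ : Representation ℂ M V) (σ' : Representation ℂ M V'),
  σ.IsIrreducible → σ'.IsIrreducible → (∀ z ∈ Subgroup.center M, σ z = 1 → z = 1) →
  (∀ z ∈ Subgroup.center M, ∃ c : ℂ, (∀ v, σ z v = c • v) ∧ ∀ v, σ' z v = c • v) →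
  ∃ T : V ≃ₗ[ℂ] V', ∀ (m : M) (v : V), T (σ m v) = σ' m (T v)

/-- the algebra homomorphism from `End V₀` to `End V` -/
def T6 : Prop := ∀ (q : ℕ) [Fact q.Prime] (M : Type) [Group M] [Finite M], Sy q M →
  ∀ M₀ : Subgroup M, Nd M₀ →
  ∀ (V : Type) [AddCommGroup V] [Module ℂ V] [FiniteDimensional ℂ V] (σ : Representation ℂ M V),
  σ.IsIrreducible → (∀ z ∈ Subgroup.center M, σ z = 1 → z = 1) →
  ∃ (V₀ : Type) (_ : AddCommGroup V₀) (_ : Module ℂ V₀) (_ : FiniteDimensional ℂ V₀)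
    (σ₀ : Representation ℂ M₀ V₀) (Φ : (V₀ →ₗ[ℂ] V₀) →ₐ[ℂ] (V →ₗ[ℂ] V)),
    σ₀.IsIrreducible ∧ (∀ z ∈ Subgroup.center M₀, σ₀ z = 1 → z = 1) ∧
    (∀ m : M₀, Φ (σ₀ m) = σ m) ∧
    (∀ b : V₀ →ₗ[ℂ] V₀, b ∈ Submodule.span ℂ (Set.range σ₀))

/-- the trace of an operator implementing an automorphism without fixed points -/
def T8 : Prop := ∀ (q : ℕ) [Fact q.Prime] (M : Type) [Group M] [Finite M], Sy q M →
  ∀ (V : Type) [AddCommGroup V] [Module ℂ V] [FiniteDimensional ℂ V] (σ : Representation ℂ M V),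
  σ.IsIrreducible → (∀ z ∈ Subgroup.center M, σ z = 1 → z = 1) →
  ∀ α : MulAut M, (∀ z ∈ Subgroup.center M, α z = z) →
    (∀ m : M, α m * m⁻¹ ∈ Subgroup.center M → m ∈ Subgroup.center M) →
  ∀ T : V ≃ₗ[ℂ] V, (∀ (m : M) (v : V), T (σ m v) = σ (α m) (T v)) →
    LinearMap.trace ℂ V T * LinearMap.trace ℂ V T.symm = 1

/-- characters of a direct product with a group of prime order with values of absolute value one -/
def T9 : Prop := ∀ (p : ℕ) [Fact p.Prime] (C Y V : Type) [Group C] [Group Y] [Finite C] [Finite Y]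
  [AddCommGroup V] [Module ℂ V] [FiniteDimensional ℂ V] (ρ : Representation ℂ (C × Y) V),
  Nat.card C = p →
  (∀ (c : C) (y : Y), c ≠ 1 → ρ.character (c, y) * ρ.character (c⁻¹, y⁻¹) = 1) →
  ∃ (ψ : Y →* ℂˣ) (f : C → ℂ), ∀ (c : C) (y : Y), c ≠ 1 →
    f c ≠ 0 ∧ ρ.character (c, y) = f c * ((ψ y : ℂˣ) : ℂ)

/-- the base case: `E` acts as a group of order `p` -/
def T10 : Prop := ∀ (p q : ℕ) [Fact p.Prime] [Fact q.Prime] (M X : Type) [Group M] [Finite M]
  [Group X] [Finite X] (φ : X →* MulAut M) (E R : Subgroup X), SD p q φ E R →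
  ∀ x ∈ E, (∀ e ∈ E, ∃ i : ℕ, ∀ m, φ e m = φ (x ^ i) m) → AllLift φ R

/-- gluing of two commuting subgroups -/
def T11 : Prop := ∀ (q : ℕ) [Fact q.Prime] (M X : Type) [Group M] [Finite M]
  [Group X] [Finite X] (φ : X →* MulAut M) (R : Subgroup X),
  (∀ (x : X) (z : M), z ∈ Subgroup.center M → φ x z = z) → Sy q M →
  ∀ M₀ : Subgroup M, Nd M₀ → R ≤ St φ M₀ → R ≤ St φ (Subgroup.centralizer (M₀ : Set M)) →
  AllLift (ra φ M₀) (R.subgroupOf (St φ M₀)) →
  AllLift (ra φ (Subgroup.centralizer (M₀ : Set M)))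
    (R.subgroupOf (St φ (Subgroup.centralizer (M₀ : Set M)))) →
  AllLift φ R

/-- gluing of the conjugates of a subgroup -/
def T12 : Prop := ∀ (q : ℕ) [Fact q.Prime] (M X : Type) [Group M] [Finite M]
  [Group X] [Finite X] (φ : X →* MulAut M) (R R₁ : Subgroup X) (g : X),
  (∀ (x : X) (z : M), z ∈ Subgroup.center M → φ x z = z) → Sy q M →
  R₁ ≤ R → g ∈ R → R₁.relIndex R = q → (∀ x ∈ R, ∀ y ∈ R₁, x * y * x⁻¹ ∈ R₁) → g ∉ R₁ →
  ∀ M₀ : Subgroup M, Nd M₀ → Subgroup.center M ≠ M₀ → R₁ ≤ St φ M₀ →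
  (∀ i : ℕ, 0 < i → i < q → ∀ a ∈ M₀, ∀ b ∈ M₀, a * φ (g ^ i) b = φ (g ^ i) b * a) →
  (⨆ i : ℕ, M₀.map (φ (g ^ i)).toMonoidHom) = ⊤ →
  AllLift (ra φ M₀) (R₁.subgroupOf (St φ M₀)) → AllLift φ R

/-- the subgroup generated by non-degenerate subgroups, two of which commute or are equal -/
def T14 : Prop := ∀ (M : Type) [Group M] [Finite M] (ι : Type) [Nonempty ι] (F : ι → Subgroup M),
  (∀ i, Nd (F i)) → (∀ i j, F i = F j ∨ ∀ a ∈ F i, ∀ b ∈ F j, a * b = b * a) → Nd (⨆ i, F i)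

end Pool.Agent.K3h83.IN
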