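import Pool.Agent.K3h83.IN.Rel

/-!
# Statements for groups with a Sylow `p`-subgroup of order `p`
-/

set_option autoImplicit false

open scoped BigOperators Classical

noncomputable section

namespace Pool.Agent.K3h83.IN

open Pool.Agent.Helper884 Pool.Agent.K3h3.KB Pool.Agent.K3h3.MK
open Pool.Agent.H254R3.IN (IsIrr mem_Irr RF red)
open IC (Irr)

/-! ### modular representations -/

/-- the representations are not isomorphic -/
def NonIso {F G V V' : Type} [Field F] [Group G] [AddCommGroup V] [Module F V] [AddCommGroup V']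
    [Module F V'] (ρ : Representation F G V) (ρ' : Representation F G V') : Prop :=
  ¬ ∃ e : V ≃ₗ[F] V', ∀ (g : G) (v : V), e (ρ g v) = ρ' g (e v)

/-- the operator `∑ g θ g⁻¹` -/
def Tr {F G V : Type} [Field F] [Group G] [Finite G] [AddCommGroup V] [Module F V]
    (ρ : Representation F G V) (θ : V →ₗ[F] V) : V →ₗ[F] V :=
  letI := Fintype.ofFinite G
  ∑ g : G, ρ g ∘ₗ θ ∘ₗ ρ g⁻¹

/-- the fixed points of `P` -/
def FP {F G V : Type} [Field F] [Group G] [AddCommGroup V] [Module F V]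
    (ρ : Representation F G V) (P : Subgroup G) : Submodule F V where
  carrier := {v | ∀ x ∈ P, ρ x v = v}
  add_mem' := by
    intro a b ha hb x hx
    rw [map_add, ha x hx, hb x hx]
  zero_mem' := fun x _ => map_zero _
  smul_mem' := by
    intro c a ha x hx
    rw [map_smul, ha x hx]

/-- the image of `∑_{x ∈ P} x` -/
def TP {F G V : Type} [Field F] [Group G] [Finite G] [AddCommGroup V] [Module F V]
    (ρ : Representation F G V) (P : Subgroup G) : Submodule F V :=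
  letI := Fintype.ofFinite P
  LinearMap.range (∑ x : P, ρ (x : G))

/-- the representation `τ` of `N_G(P)` has a nonzero homomorphism to `V^P / (∑_{x ∈ P} x) V` -/
def Occ {p : ℕ} {F G V W : Type} [Field F] [Group G] [Finite G] [AddCommGroup V] [Module F V]
    [AddCommGroup W] [Module F W] (P : Sylow p G) (ρ : Representation F G V)
    (τ : Representation F (NN P) W) : Prop :=
  ∃ f : W →ₗ[F] V, (∀ w, f w ∈ FP ρ P) ∧ (∀ (k : NN P) (w : W), ρ k (f w) - f (τ k w) ∈ TP ρ P) ∧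
    ∃ w, f w ∉ TP ρ P

/-- the number of irreducible representations in characteristic `p` -/
def M1 : Prop := ∀ (p : ℕ) [Fact p.Prime] (F : Type) [Field F] [IsAlgClosed F] [CharP F p]
  (G : Type) [Group G] [Finite G] (ι : Type) [Finite ι] (n : ι → ℕ)
  (ρ : ∀ i, Representation F G (Fin (n i) → F)),
  (∀ i, (ρ i).IsIrreducible) → (∀ i j, i ≠ j → NonIso (ρ i) (ρ j)) →
  Nat.card ι ≤ Nat.card {c : ConjClasses G // ∃ g, ConjClasses.mk g = c ∧ ¬ p ∣ orderOf g}

/-- the characters of defect zero -/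
def Dz (p : ℕ) (G : Type) [Group G] : Type :=
  {χ : G → ℂ // IsIrr χ ∧ ¬ p ∣ Nat.card G / ndeg χ}

/-- reduction of the characters of defect zero -/
def M2 : Prop := ∀ (p : ℕ) [Fact p.Prime] (O : ValuationSubring ℂ) (_ : (p : ℂ) ∈ O.nonunits)
  (G : Type) [Group G] [Finite G], ∃ (n : Dz p G → ℕ)
  (ρ : ∀ i, Representation (RF O) G (Fin (n i) → RF O)),
  (∀ i, (ρ i).IsIrreducible) ∧ (∀ i j, i ≠ j → NonIso (ρ i) (ρ j)) ∧
  ∀ i, ∃ θ, Tr (ρ i) θ = 1

/-- each irreducible representation of `N_G(P) / P` occurs -/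
def M3 : Prop := ∀ (p : ℕ) [Fact p.Prime] (F : Type) [Field F] [IsAlgClosed F] [CharP F p]
  (G : Type) [Group G] [Finite G] (P : Sylow p G), Nat.card P = p →
  ∀ (n : ℕ) (τ : Representation F (NN P) (Fin n → F)), τ.IsIrreducible →
  (∀ x : NN P, (x : G) ∈ P → τ x = 1) →
  ∃ (m : ℕ) (ρ : Representation F G (Fin m → F)), ρ.IsIrreducible ∧ Occ P ρ τ

/-- at most one irreducible representation of `N_G(P) / P` occurs in `V` -/
def M4 : Prop := ∀ (p : ℕ) [Fact p.Prime] (F : Type) [Field F] [IsAlgClosed F] [CharP F p]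
  (G : Type) [Group G] [Finite G] (P : Sylow p G), Nat.card P = p →
  ∀ (m : ℕ) (ρ : Representation F G (Fin m → F)), ρ.IsIrreducible →
  ∀ (n n' : ℕ) (τ : Representation F (NN P) (Fin n → F)) (τ' : Representation F (NN P) (Fin n' → F)),
  τ.IsIrreducible → τ'.IsIrreducible → (∀ x : NN P, (x : G) ∈ P → τ x = 1) →
  (∀ x : NN P, (x : G) ∈ P → τ' x = 1) → Occ P ρ τ → Occ P ρ τ' → ¬ NonIso τ τ'

/-- projective representations -/
def M5 : Prop := ∀ (p : ℕ) [Fact p.Prime] (F : Type) [Field F]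
  (G : Type) [Group G] [Finite G] (P : Subgroup G) (m : ℕ) (ρ : Representation F G (Fin m → F)),
  (∃ θ, Tr ρ θ = 1) → FP ρ P ≤ TP ρ P

/-- the inequality -/
def M6 : Prop := ∀ (p : ℕ) [Fact p.Prime] (G : Type) [Group G] [Finite G] (P : Sylow p G),
  Nat.card P = p →
  Nat.card {χ : G → ℂ // IsIrr χ ∧ (ndeg χ : ZMod p) = 0} +
    Nat.card (ConjClasses (NN P ⧸ (P : Subgroup G).subgroupOf (NN P))) ≤
  Nat.card {c : ConjClasses G // ∃ g, ConjClasses.mk g = c ∧ ¬ p ∣ orderOf g}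

/-! ### ordinary characters -/

/-- the structure of the normalizer `A` of a Sylow subgroup `P` of order `p`: `C_A(P) = P × H` -/
structure LD (p : ℕ) {A : Type} [Group A] (P H : Subgroup A) : Prop where
  nP : P.Normal
  nH : H.Normal
  cP : Nat.card P = p
  cH : ¬ p ∣ Nat.card H
  idx : ¬ p ∣ P.index
  cen : Subgroup.centralizer (P : Set A) = P ⊔ H
  com : ∀ x ∈ P, ∀ y ∈ H, x * y = y * x

/-- `A` is the normalizer of the Sylow subgroup `ι(P)` of `G` -/
structure EM (p : ℕ) {A G : Type} [Group A] [Group G] (P : Subgroup A) (ι : A →* G) : Prop where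
  inj : Function.Injective ι
  nor : ∀ g : G, (∀ x ∈ P, ∃ y ∈ P, g * ι x * g⁻¹ = ι y) → g ∈ ι.range
  syl : ¬ p ∣ (P.map ι).index

/-- existence -/
def N0 : Prop := ∀ (p : ℕ) [Fact p.Prime] (G : Type) [Group G] [Finite G] (P : Sylow p G),
  Nat.card P = p → ∃ H : Subgroup (NN P), LD p ((P : Subgroup G).subgroupOf (NN P)) H ∧
    EM p ((P : Subgroup G).subgroupOf (NN P)) (NN P).subtype ∧
    EM p ((P : Subgroup G).subgroupOf (NN P)) (MonoidHom.id (NN P))

/-- the multiplicity of `φ` in the restriction of `χ` to `H` -/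
def aN {A G : Type} [Group A] [Finite A] [Group G] (H : Subgroup A) (ι : A →* G) (χ : G → ℂ)
    (φ : H → ℂ) : ℕ :=
  letI := Fintype.ofFinite H
  ⌊(IC.B (fun y : H => χ (ι y)) φ).re⌋₊

/-- the order of the stabilizer of `φ` -/
def stb {A : Type} [Group A] (H : Subgroup A) (φ : H → ℂ) : ℕ :=
  Nat.card {a : A // fixes H.subtype φ a}

/-- `aN` is the multiplicity -/
def N1 : Prop := ∀ (A G : Type) [Group A] [Finite A] [Group G] [Finite G] (H : Subgroup A)
  [Fintype H] (ι : A →* G) (χ : G → ℂ) (φ : H → ℂ), Function.Injective ι → IsIrr χ → IsIrr φ →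
  (aN H ι χ φ : ℂ) = IC.B (fun y : H => χ (ι y)) φ ∧
  ∀ (a : A) (φ' : H → ℂ), IsIrr φ' → (∀ y y' : H, a * y * a⁻¹ = y' → φ' y' = φ y) →
    aN H ι χ φ' = aN H ι χ φ

/-- block orthogonality modulo `p` -/
def N2 : Prop := ∀ (p : ℕ) [Fact p.Prime] (A G : Type) [Group A] [Finite A] [Group G] [Finite G]
  (P H : Subgroup A) (ι : A →* G), LD p P H → EM p P ι →
  ∀ (χ : G → ℂ) (φ φ' : H → ℂ), IsIrr χ → IsIrr φ → IsIrr φ' → ¬ p ∣ aN H ι χ φ →
  ¬ p ∣ aN H ι χ φ' → ∃ a : A, ∀ y y' : H, a * y * a⁻¹ = y' → φ' y' = φ y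

/-- degrees and multiplicities -/
def N3 : Prop := ∀ (p : ℕ) [Fact p.Prime] (A G : Type) [Group A] [Finite A] [Group G] [Finite G]
  (P H : Subgroup A) (ι : A →* G), LD p P H → EM p P ι →
  ∀ (χ : G → ℂ), IsIrr χ →
  ((ndeg χ : ZMod p) ≠ 0 → ∃ φ : H → ℂ, IsIrr φ ∧ ¬ p ∣ aN H ι χ φ) ∧
  ((ndeg χ : ZMod p) = 0 → ∀ φ : H → ℂ, IsIrr φ → p ∣ aN H ι χ φ) ∧
  ∀ φ : H → ℂ, IsIrr φ → ¬ p ∣ aN H ι χ φ →
    (ndeg χ : ZMod p) = ((Nat.card A / stb H φ : ℕ) : ZMod p) * (aN H ι χ φ : ZMod p) *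
      (ndeg φ : ZMod p)

/-- the vectors of integers -/
def N4 : Prop := ∀ (p : ℕ) [Fact p.Prime] (A G : Type) [Group A] [Finite A] [Group G] [Fintype G]
  (P H : Subgroup A) (ι : A →* G), LD p P H → EM p P ι →
  ∀ (φ : H → ℂ), IsIrr φ → ∀ e f : ℕ, stb H φ = e * (p * Nat.card H) → e * f + 1 = p →
  ∃ u : Fin f → (G → ℂ) → ℤ,
    (∀ i j, ∑ χ ∈ Irr G, u i χ * u j χ = e + if i = j then 1 else 0) ∧
    ∀ χ ∈ Irr G, (aN H ι χ φ : ZMod p) = e * ((∑ i, u i χ : ℤ) : ZMod p)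

/-- the stabilizer -/
def N5 : Prop := ∀ (p : ℕ) [Fact p.Prime] (A : Type) [Group A] [Finite A]
  (P H : Subgroup A), LD p P H → ∀ (φ : H → ℂ), IsIrr φ →
  ∃ e f : ℕ, stb H φ = e * (p * Nat.card H) ∧ e * f + 1 = p ∧ stb H φ ∣ Nat.card A

/-- integer vectors with this Gram matrix -/
def N6 : Prop := ∀ (p : ℕ) [Fact p.Prime] (ι : Type) (I : Finset ι) (e f : ℕ) (_ : e * f + 1 = p)
  (u : Fin f → ι → ℤ) (a : ι → ℕ)
  (_ : ∀ i j, ∑ χ ∈ I, u i χ * u j χ = e + if i = j then 1 else 0)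
  (_ : ∀ χ ∈ I, (a χ : ZMod p) = e * ((∑ i, u i χ : ℤ) : ZMod p)),
  (I.filter fun χ => ¬ p ∣ a χ).card ≤ e + f ∧
  ((I.filter fun χ => ¬ p ∣ a χ).card = e + f →
    ∑ χ ∈ I.filter (fun χ => ¬ p ∣ a χ), cl p (a χ) = (e : RR p) + (f : RR p) * cl p e)

/-- the number of `p`-singular classes -/
def N7 : Prop := ∀ (p : ℕ) [Fact p.Prime] (A G : Type) [Group A] [Finite A] [Group G] [Finite G]
  (P H : Subgroup A) (ι : A →* G), LD p P H → EM p P ι →
  Nat.card A * Nat.card {c : ConjClasses G // ∃ g, ConjClasses.mk g = c ∧ p ∣ orderOf g} =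
    (p - 1) * (p * Nat.card H) * Nat.card (ConjClasses H)

/-- the number of classes of `A / P` -/
def N8 : Prop := ∀ (p : ℕ) [Fact p.Prime] (A : Type) [Group A] [Finite A]
  (P H : Subgroup A) [P.Normal] [Fintype H], LD p P H →
  Nat.card A * Nat.card (ConjClasses (A ⧸ P)) * (p * Nat.card H) = ∑ φ ∈ Irr H, stb H φ ^ 2

/-- orbits -/
def N9 : Prop := ∀ (p : ℕ) [Fact p.Prime] (A G : Type) [Group A] [Finite A] [Group G] [Finite G]
  (P H : Subgroup A) [Fintype H] (ι : A →* G), LD p P H → EM p P ι →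
  ∀ (χ : G → ℂ), IsIrr χ → (ndeg χ : ZMod p) ≠ 0 →
  ∑ φ ∈ (Irr H).filter (fun φ => ¬ p ∣ aN H ι χ φ), stb H φ = Nat.card A

/-- the equality for Sylow subgroups of order `p` -/
def NP : Prop := ∀ (p : ℕ) [Fact p.Prime] (G : Type) [Group G] [Finite G] (P : Sylow p G),
  Nat.card P = p → wt (cl p) G = wt (cl p) (NN P)

end Pool.Agent.K3h83.IN
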